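import Pool.Agent.K9h89.Res

/-!
# The modules `A(X, p)` and their syzygies
-/

set_option autoImplicit false

namespace Pool.Agent.K9h89

universe u

variable {R : Type u} [Ring R] {S : Type} [Fintype S] [DecidableEq S]

/-- `(e_s)_s ↦ ∑_s (ρ_s e_s - e_s)`. -/
noncomputable def mu {E : Type u} [AddCommGroup E] [Module R E] (ρ : S → E →ₗ[R] E) :
    (S → E) →ₗ[R] E :=
  ∑ s, (ρ s - LinearMap.id) ∘ₗ LinearMap.proj s

theorem mu_apply {E : Type u} [AddCommGroup E] [Module R E] (ρ : S → E →ₗ[R] E) (e : S → E) :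
    mu ρ e = ∑ s, (ρ s (e s) - e s) := by
  simp [mu]

/-- The kernel of `(S → E) × F → E`, `(e, x) ↦ ∑ (ρ_s e_s - e_s) + p x`. -/
noncomputable def Acone {E F : Type u} [AddCommGroup E] [Module R E] [AddCommGroup F] [Module R F]
    (ρ : S → E →ₗ[R] E) (p : F →ₗ[R] E) : Submodule R ((S → E) × F) :=
  LinearMap.ker (LinearMap.coprod (mu ρ) p)

theorem mem_Acone {E F : Type u} [AddCommGroup E] [Module R E] [AddCommGroup F] [Module R F]
    (ρ : S → E →ₗ[R] E) (p : F →ₗ[R] E) (e : S → E) (x : F) :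
    (e, x) ∈ Acone ρ p ↔ mu ρ e + p x = 0 := by
  simp [Acone]

section

variable {Eh E : Type u} [AddCommGroup Eh] [Module R Eh] [AddCommGroup E] [Module R E]
  (p : Eh →ₗ[R] E) (ρh : S → Eh →ₗ[R] Eh) (ρ : S → E →ₗ[R] E)
  (hc : ∀ s x, p (ρh s x) = ρ s (p x))

/-- The restriction of `ρ̂_s` to the kernel of `p`. -/
def rk (s : S) : LinearMap.ker p →ₗ[R] LinearMap.ker p :=
  LinearMap.codRestrict _ (ρh s ∘ₗ (LinearMap.ker p).subtype) (by
    rintro ⟨x, hx⟩
    rw [LinearMap.mem_ker] at hx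
    simp [hc, hx])

include hc in
theorem p_mu (b : S → Eh) : p (mu ρh b) = mu ρ (fun s => p (b s)) := by
  simp [mu_apply, hc]

theorem mu_rk (b : S → LinearMap.ker p) :
    ((mu (rk p ρh ρ hc) b : LinearMap.ker p) : Eh) = mu ρh (fun s => (b s : Eh)) := by
  simp [mu_apply, rk]

/-- `(b, x) ↦ (p ∘ b, x - μ̂ b)`. -/
noncomputable def psi0 : ((S → Eh) × LinearMap.ker p) →ₗ[R] Acone ρ p :=
  LinearMap.codRestrict _ (LinearMap.prod
    (LinearMap.pi (fun s => p ∘ₗ LinearMap.proj s) ∘ₗ LinearMap.fst R _ _)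
    ((LinearMap.ker p).subtype ∘ₗ LinearMap.snd R _ _ - mu ρh ∘ₗ LinearMap.fst R _ _)) (by
    rintro ⟨b, x, hx⟩
    rw [LinearMap.mem_ker] at hx
    have h1 := p_mu p ρh ρ hc b
    have h2 : (fun s => p (b s)) = LinearMap.pi (fun s => p ∘ₗ LinearMap.proj s) b := rfl
    change (_, _) ∈ Acone ρ p
    rw [mem_Acone]
    simp only [LinearMap.comp_apply, LinearMap.fst_apply, LinearMap.snd_apply,
      LinearMap.sub_apply, Submodule.subtype_apply, map_sub, hx, h1, h2]
    simp)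

theorem psi0_fst (b : S → Eh) (x : LinearMap.ker p) (s : S) :
    (psi0 p ρh ρ hc (b, x)).1.1 s = p (b s) := rfl

theorem psi0_snd (b : S → Eh) (x : LinearMap.ker p) :
    (psi0 p ρh ρ hc (b, x)).1.2 = x - mu ρh b := rfl

theorem psi0_surj (hp : Function.Surjective p) : Function.Surjective (psi0 p ρh ρ hc) := by
  rintro ⟨⟨e, x⟩, hex⟩
  rw [mem_Acone] at hex
  choose b hb using fun s => hp (e s)
  have h1 : p (x + mu ρh b) = 0 := by
    rw [map_add, p_mu p ρh ρ hc b]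
    simp only [hb]
    rw [add_comm]; exact hex
  refine ⟨(b, ⟨x + mu ρh b, h1⟩), ?_⟩
  apply Subtype.ext
  apply Prod.ext
  · funext s
    rw [psi0_fst]; exact hb s
  · rw [psi0_snd]; simp

theorem psi0_eq_zero (b : S → Eh) (x : LinearMap.ker p) (h : psi0 p ρh ρ hc (b, x) = 0) :
    ∃ b' : S → LinearMap.ker p, (∀ s, (b' s : Eh) = b s) ∧ x = mu (rk p ρh ρ hc) b' := by
  have h1 : ∀ s, p (b s) = 0 := fun s => by
    rw [← psi0_fst p ρh ρ hc b x s, h]; rfl
  have h2 : (x : Eh) - mu ρh b = 0 := by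
    rw [← psi0_snd p ρh ρ hc b x, h]; rfl
  refine ⟨fun s => ⟨b s, h1 s⟩, fun s => rfl, ?_⟩
  apply Subtype.ext
  rw [mu_rk]
  exact sub_eq_zero.1 h2

theorem psi0_mu (b : S → LinearMap.ker p) :
    psi0 p ρh ρ hc ((fun s => (b s : Eh)), mu (rk p ρh ρ hc) b) = 0 := by
  apply Subtype.ext
  apply Prod.ext
  · funext s
    rw [psi0_fst]; exact (b s).2
  · rw [psi0_snd, mu_rk]; simp

/-- If `A(X, p)` is finitely generated, so is `X' / (ρ' - 1) X'` with `X' = ker p`. -/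
theorem K1_mp (hp : Function.Surjective p) (h : Module.Finite R (Acone ρ p)) :
    Module.Finite R (LinearMap.ker p ⧸ LinearMap.range (mu (rk p ρh ρ hc))) := by
  -- the quotient is a quotient of the cone
  set Q := LinearMap.range (mu (rk p ρh ρ hc)) with hQ
  let g : ((S → Eh) × LinearMap.ker p) →ₗ[R] (LinearMap.ker p ⧸ Q) :=
    Q.mkQ ∘ₗ LinearMap.snd R _ _
  have hg : Function.Surjective g := by
    intro y
    obtain ⟨x, rfl⟩ := Q.mkQ_surjective y
    exact ⟨(0, x), rfl⟩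
  have hker : LinearMap.ker (psi0 p ρh ρ hc) ≤ LinearMap.ker g := by
    rintro ⟨b, x⟩ hbx
    rw [LinearMap.mem_ker] at hbx ⊢
    obtain ⟨b', -, hx⟩ := psi0_eq_zero p ρh ρ hc b x hbx
    change Q.mkQ x = 0
    rw [Submodule.mkQ_apply, Submodule.Quotient.mk_eq_zero, hQ]
    exact ⟨b', hx.symm⟩
  let g' : (((S → Eh) × LinearMap.ker p) ⧸ LinearMap.ker (psi0 p ρh ρ hc)) →ₗ[R]
      (LinearMap.ker p ⧸ Q) := (LinearMap.ker (psi0 p ρh ρ hc)).liftQ g hker
  have hg' : Function.Surjective g' := by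
    intro y
    obtain ⟨x, rfl⟩ := hg y
    exact ⟨Submodule.Quotient.mk x, rfl⟩
  let e := (psi0 p ρh ρ hc).quotKerEquivOfSurjective (psi0_surj p ρh ρ hc hp)
  have : Module.Finite R (((S → Eh) × LinearMap.ker p) ⧸ LinearMap.ker (psi0 p ρh ρ hc)) :=
    Module.Finite.equiv e.symm
  exact Module.Finite.of_surjective g' hg'

/-- The converse. -/
theorem K1_mpr (hp : Function.Surjective p) (hEh : Module.Finite R Eh)
    (h : Module.Finite R (LinearMap.ker p ⧸ LinearMap.range (mu (rk p ρh ρ hc)))) :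
    Module.Finite R (Acone ρ p) := by
  set Q := LinearMap.range (mu (rk p ρh ρ hc)) with hQ
  obtain ⟨k, f, hf⟩ := Module.Finite.exists_fin' R (LinearMap.ker p ⧸ Q)
  obtain ⟨l, hl⟩ := Module.projective_lifting_property Q.mkQ f Q.mkQ_surjective
  let F : ((S → Eh) × (Fin k → R)) →ₗ[R] Acone ρ p :=
    psi0 p ρh ρ hc ∘ₗ LinearMap.prodMap LinearMap.id l
  have hF : Function.Surjective F := by
    intro a
    obtain ⟨⟨b, x⟩, rfl⟩ := psi0_surj p ρh ρ hc hp a
    obtain ⟨y, hy⟩ := hf (Q.mkQ x)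
    have h1 : Q.mkQ (x - l y) = 0 := by
      rw [map_sub, ← hy, ← hl]; simp
    rw [Submodule.mkQ_apply, Submodule.Quotient.mk_eq_zero, hQ] at h1
    obtain ⟨b', hb'⟩ := h1
    refine ⟨(b - fun s => (b' s : Eh), y), ?_⟩
    have h2 : (b, x) = (b - (fun s => (b' s : Eh)), l y) +
        ((fun s => (b' s : Eh)), mu (rk p ρh ρ hc) b') := by
      rw [hb']
      apply Prod.ext
      · simp
      · simp
    rw [h2, map_add, psi0_mu, add_zero]
    rfl
  exact Module.Finite.of_surjective F hF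

variable {F' : Type u} [AddCommGroup F'] [Module R F'] (p' : F' →ₗ[R] LinearMap.ker p)

/-- The cover of the cone. -/
noncomputable def psi1 : ((S → Eh) × F') →ₗ[R] Acone ρ p :=
  psi0 p ρh ρ hc ∘ₗ LinearMap.prodMap LinearMap.id p'

theorem psi1_surj (hp : Function.Surjective p) (hp' : Function.Surjective p') :
    Function.Surjective (psi1 p ρh ρ hc p') := by
  intro a
  obtain ⟨⟨b, x⟩, rfl⟩ := psi0_surj p ρh ρ hc hp a
  obtain ⟨y, rfl⟩ := hp' x
  exact ⟨(b, y), rfl⟩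

/-- The kernel of the cover of the cone is the next cone. -/
noncomputable def kerEquiv : Acone (rk p ρh ρ hc) p' ≃ₗ[R] LinearMap.ker (psi1 p ρh ρ hc p') := by
  refine LinearEquiv.ofBijective (LinearMap.codRestrict _ (LinearMap.prodMap
    (-LinearMap.pi (fun s => (LinearMap.ker p).subtype ∘ₗ LinearMap.proj s)) LinearMap.id ∘ₗ
      (Acone (rk p ρh ρ hc) p').subtype) ?_) ⟨?_, ?_⟩
  · rintro ⟨⟨b, y⟩, hby⟩
    rw [mem_Acone] at hby
    rw [LinearMap.mem_ker]
    have h1 : p' y = mu (rk p ρh ρ hc) (-b) := by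
      rw [map_neg]
      exact (neg_eq_of_add_eq_zero_right hby).symm
    have h2 := psi0_mu p ρh ρ hc (-b)
    rw [← h1] at h2
    exact h2
  · rintro ⟨⟨b, y⟩, hby⟩ ⟨⟨b', y'⟩, hby'⟩ h
    have h1 := congrArg (fun z => z.1.1) h
    have h2 := congrArg (fun z => z.1.2) h
    apply Subtype.ext
    apply Prod.ext
    · funext s
      have h3 := congrFun h1 s
      apply Subtype.ext
      exact neg_injective h3
    · exact h2
  · rintro ⟨⟨b, y⟩, hby⟩
    rw [LinearMap.mem_ker] at hby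
    obtain ⟨b', hb', hx⟩ := psi0_eq_zero p ρh ρ hc b (p' y) hby
    refine ⟨⟨(-b', y), ?_⟩, ?_⟩
    · rw [mem_Acone, hx, map_neg, neg_add_cancel]
    · apply Subtype.ext
      apply Prod.ext
      · funext s
        change -((-b') s : LinearMap.ker p).1 = b s
        simp [hb']
      · rfl

theorem K2 (hp : Function.Surjective p) (hp' : Function.Surjective p') (hEh : FF R Eh)
    (hF' : FF R F') (m : ℕ) :
    FPn R (m + 1) (Acone ρ p) ↔ FPn R m (Acone (rk p ρh ρ hc) p') := by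
  rw [FPn.congr (kerEquiv p ρh ρ hc p')]
  have h1 : FF R ((S → Eh) × F') := FF.prod (FF.pi S hEh) hF'
  constructor
  · intro h
    exact FPn.ker (psi1 p ρh ρ hc p') (psi1_surj p ρh ρ hc p' hp hp') (h1.fpn m) h
  · intro h
    exact FPn.of_ff h1 (psi1 p ρh ρ hc p') (psi1_surj p ρh ρ hc p' hp hp') h

end

end Pool.Agent.K9h89
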