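import Pool.Agent.K9h89.Ind

/-!
# Finitely presented groups: kernels and extensions
-/

set_option autoImplicit false
set_option linter.unusedSectionVars false

namespace Pool.Agent.K9h89

/-- The images of the free generators generate. -/
theorem closure_range_of {n : ℕ} {G : Type} [Group G] (f : FreeGroup (Fin n) →* G)
    (hf : Function.Surjective f) :
    Subgroup.closure (Set.range fun i => f (FreeGroup.of i)) = ⊤ := by
  have h1 : Set.range (fun i => f (FreeGroup.of i)) = f '' (Set.range FreeGroup.of) := by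
    rw [← Set.range_comp]; rfl
  rw [h1, ← MonoidHom.map_closure, FreeGroup.closure_range_of, ← MonoidHom.range_eq_map,
    MonoidHom.range_eq_top.2 hf]

/-- The kernel of a surjection from a finitely generated group to a finitely presented group is
finitely generated as a normal subgroup. -/
theorem ker_fng {G Q : Type} [Group G] [Group Q] [hQ : Group.IsFinitelyPresented Q] {m : ℕ}
    (g : Fin m → G) (hg : Subgroup.closure (Set.range g) = ⊤) (φ : G →* Q)
    (hφ : Function.Surjective φ) : φ.ker.IsFinitelyNormallyGenerated := by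
  obtain ⟨n, ψ, hψ, R0, hR0, hker⟩ := hQ.out
  choose y hy using fun i : Fin n => hφ (ψ (FreeGroup.of i))
  let L : FreeGroup (Fin n) →* G := FreeGroup.lift y
  have hL : φ.comp L = ψ := by
    ext i
    simp [L, hy]
  have hL' : ∀ v, φ (L v) = ψ v := fun v => DFunLike.congr_fun hL v
  choose w hw using fun j : Fin m => hψ (φ (g j))
  let R : Set G := L '' R0 ∪ Set.range (fun j => g j * (L (w j))⁻¹)
  refine ⟨R, (hR0.image _).union (Set.finite_range _), ?_⟩
  have hle : Subgroup.normalClosure R ≤ φ.ker := by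
    apply Subgroup.normalClosure_le_normal
    rintro x (⟨r, hr, rfl⟩ | ⟨j, rfl⟩)
    · have : r ∈ ψ.ker := by rw [← hker]; exact Subgroup.subset_normalClosure hr
      rw [SetLike.mem_coe, MonoidHom.mem_ker, hL']
      exact this
    · rw [SetLike.mem_coe, MonoidHom.mem_ker, map_mul, map_inv, hL', hw, mul_inv_cancel]
  refine le_antisymm hle ?_
  intro x hx
  set M := Subgroup.normalClosure R with hM
  -- every element is congruent to an element of the image of `L`
  have h1 : ((QuotientGroup.mk' M).comp L).range = ⊤ := by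
    have h2 : (QuotientGroup.mk' M).range ≤ ((QuotientGroup.mk' M).comp L).range := by
      rw [MonoidHom.range_eq_map, ← hg, MonoidHom.map_closure, Subgroup.closure_le]
      rintro _ ⟨_, ⟨j, rfl⟩, rfl⟩
      refine ⟨w j, ?_⟩
      change (QuotientGroup.mk' M) (L (w j)) = (QuotientGroup.mk' M) (g j)
      symm
      rw [← mul_inv_eq_one, ← map_inv, ← map_mul, ← MonoidHom.mem_ker, QuotientGroup.ker_mk']
      exact Subgroup.subset_normalClosure (Or.inr ⟨j, rfl⟩)
    rw [MonoidHom.range_eq_top.2 (QuotientGroup.mk'_surjective M)] at h2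
    exact top_le_iff.1 h2
  have h2 : (QuotientGroup.mk' M) x ∈ ((QuotientGroup.mk' M).comp L).range := by
    rw [h1]; trivial
  obtain ⟨v, hv⟩ := h2
  have h3 : x * (L v)⁻¹ ∈ M := by
    rw [← QuotientGroup.ker_mk' M, MonoidHom.mem_ker, map_mul, map_inv, mul_inv_eq_one]
    exact hv.symm
  have h4 : ψ v = 1 := by
    have h5 := hle h3
    rw [MonoidHom.mem_ker, map_mul, map_inv, hx, one_mul, inv_eq_one, hL'] at h5
    exact h5
  have h5 : v ∈ M.comap L := by
    have h6 : Subgroup.normalClosure R0 ≤ M.comap L := by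
      apply Subgroup.normalClosure_le_normal
      intro r hr
      exact Subgroup.subset_normalClosure (Or.inl ⟨r, hr, rfl⟩)
    apply h6
    rw [hker]; exact h4
  have h6 : x = x * (L v)⁻¹ * L v := by group
  rw [h6]
  exact M.mul_mem h3 h5

theorem ext_aux {N G H : Type} [Group N] [Group G] [Group H] (D : Side N G H) {a r : ℕ}
    (x : Fin a → N) (hx : Subgroup.closure (Set.range x) = ⊤) (ψ : FreeGroup (Fin r) →* H)
    (R : Set (FreeGroup (Fin r))) (hR : R.Finite)
    (hker : Subgroup.normalClosure R = ψ.ker) (L : FreeGroup (Fin r) →* G)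
    (hL' : ∀ v, D.π (L v) = ψ v) (C : Type) [Group C] (il : N →* C) (ir : FreeGroup (Fin r) →* C)
    (hind : ∀ p : C → Prop, (∀ n, p (il n)) → (∀ f, p (ir f)) → (∀ x y, p x → p y → p (x * y)) →
      ∀ z, p z) (Θ : C →* G) (hΘl : ∀ n, Θ (il n) = D.ι n) (hΘr : ∀ f, Θ (ir f) = L f) :
    Θ.ker.IsFinitelyNormallyGenerated := by
  -- the conjugation action
  have hconj : ∀ (g : G) (n : N), ∃ n' : N, D.ι n' = g * D.ι n * g⁻¹ := by
    intro g n
    apply (D.exact _).1
    rw [map_mul, map_mul, D.π_ι, mul_one, map_inv, mul_inv_cancel]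
  choose c hc using hconj
  have hrel : ∀ f : R, ∃ n : N, D.ι n = L f := by
    intro f
    apply (D.exact _).1
    rw [hL']
    have : (f : FreeGroup (Fin r)) ∈ ψ.ker := by
      rw [← hker]; exact Subgroup.subset_normalClosure f.2
    exact this
  choose ν hν using hrel
  obtain ⟨T1, hT1⟩ : ∃ T1 : Set C, T1 = Set.range (fun p : Fin r × Fin a =>
    ir (FreeGroup.of p.1) * il (x p.2) *
    (ir (FreeGroup.of p.1))⁻¹ * (il (c (L (FreeGroup.of p.1)) (x p.2)))⁻¹) := ⟨_, rfl⟩
  obtain ⟨T2, hT2⟩ : ∃ T2 : Set C, T2 = Set.range (fun p : Fin r × Fin a =>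
    (ir (FreeGroup.of p.1))⁻¹ * il (x p.2) *
    ir (FreeGroup.of p.1) * (il (c (L (FreeGroup.of p.1))⁻¹ (x p.2)))⁻¹) := ⟨_, rfl⟩
  have : Finite R := hR
  obtain ⟨T3, hT3⟩ : ∃ T3 : Set C, T3 = Set.range (fun f : R => ir f * (il (ν f))⁻¹) := ⟨_, rfl⟩
  have hTfin : (T1 ∪ T2 ∪ T3).Finite := by
    rw [hT1, hT2, hT3]
    exact ((Set.finite_range _).union (Set.finite_range _)).union (Set.finite_range _)
  obtain ⟨M, hM⟩ : ∃ M, M = Subgroup.normalClosure (T1 ∪ T2 ∪ T3) := ⟨_, rfl⟩
  have hMn : M.Normal := by rw [hM]; exact Subgroup.normalClosure_normal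
  have hTM : T1 ∪ T2 ∪ T3 ⊆ M := by rw [hM]; exact Subgroup.subset_normalClosure
  have hle : M ≤ Θ.ker := by
    rw [hM]
    apply Subgroup.normalClosure_le_normal
    rintro z ((hz | hz) | hz)
    · rw [hT1] at hz
      obtain ⟨p, rfl⟩ := hz
      rw [SetLike.mem_coe, MonoidHom.mem_ker]
      simp only [map_mul, map_inv, hΘl, hΘr, hc]
      group
    · rw [hT2] at hz
      obtain ⟨p, rfl⟩ := hz
      rw [SetLike.mem_coe, MonoidHom.mem_ker]
      simp only [map_mul, map_inv, hΘl, hΘr, hc]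
      group
    · rw [hT3] at hz
      obtain ⟨f, rfl⟩ := hz
      rw [SetLike.mem_coe, MonoidHom.mem_ker]
      simp only [map_mul, map_inv, hΘl, hΘr, hν]
      group
  refine ⟨T1 ∪ T2 ∪ T3, hTfin, ?_⟩
  rw [← hM]
  refine le_antisymm hle ?_
  obtain ⟨q, hq'⟩ : ∃ q : C →* C ⧸ M, q = QuotientGroup.mk' M := ⟨_, rfl⟩
  have hqk : q.ker = M := by rw [hq', QuotientGroup.ker_mk']
  have hq : ∀ z z', q z = q z' ↔ z * z'⁻¹ ∈ M := by
    intro z z'
    have h : z * z'⁻¹ ∈ q.ker ↔ z * z'⁻¹ ∈ M := by rw [hqk]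
    rw [← h, MonoidHom.mem_ker, map_mul, map_inv, mul_inv_eq_one]
  let Nh : Subgroup (C ⧸ M) := (q.comp il).range
  -- normality of `Nh`
  have hn1 : ∀ (e : C ⧸ M), (∀ i, e * q (il (x i)) * e⁻¹ ∈ Nh) → ∀ z ∈ Nh, e * z * e⁻¹ ∈ Nh := by
    rintro e he _ ⟨n, rfl⟩
    have h1 : n ∈ Subgroup.closure (Set.range x) := by rw [hx]; trivial
    induction h1 using Subgroup.closure_induction with
    | mem n hn => obtain ⟨i, rfl⟩ := hn; exact he i
    | one => rw [map_one, mul_one, mul_inv_cancel]; exact Nh.one_mem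
    | mul n n' _ _ h1 h2 =>
      have : e * (q.comp il) (n * n') * e⁻¹ = (e * (q.comp il) n * e⁻¹) *
          (e * (q.comp il) n' * e⁻¹) := by rw [map_mul]; group
      rw [this]; exact Nh.mul_mem h1 h2
    | inv n _ h1 =>
      have : e * (q.comp il) n⁻¹ * e⁻¹ = (e * (q.comp il) n * e⁻¹)⁻¹ := by rw [map_inv]; group
      rw [this]; exact Nh.inv_mem h1
  have hn2 : ∀ (f : FreeGroup (Fin r)), ∀ z ∈ Nh, q (ir f) * z * (q (ir f))⁻¹ ∈ Nh := by
    intro f
    induction f using FreeGroup.induction_on with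
    | C1 =>
      intro z hz
      rw [map_one, map_one, one_mul, inv_one, mul_one]; exact hz
    | of j =>
      apply hn1
      intro i
      refine ⟨c (L (FreeGroup.of j)) (x i), ?_⟩
      symm
      change q (ir (FreeGroup.of j)) * q (il (x i)) * (q (ir (FreeGroup.of j)))⁻¹ = q (il _)
      rw [← map_inv, ← map_mul, ← map_mul, hq]
      exact hTM (Or.inl (Or.inl (by rw [hT1]; exact ⟨(j, i), rfl⟩)))
    | inv_of j _ =>
      apply hn1
      intro i
      refine ⟨c (L (FreeGroup.of j))⁻¹ (x i), ?_⟩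
      symm
      change q (ir (FreeGroup.of j)⁻¹) * q (il (x i)) * (q (ir (FreeGroup.of j)⁻¹))⁻¹ = q (il _)
      rw [map_inv ir, map_inv q, inv_inv, ← map_inv, ← map_mul, ← map_mul, hq]
      exact hTM (Or.inl (Or.inr (by rw [hT2]; exact ⟨(j, i), rfl⟩)))
    | mul f f' h1 h2 =>
      intro z hz
      have : q (ir (f * f')) * z * (q (ir (f * f')))⁻¹ =
          q (ir f) * (q (ir f') * z * (q (ir f'))⁻¹) * (q (ir f))⁻¹ := by
        rw [map_mul, map_mul]; group
      rw [this]; exact h1 _ (h2 _ hz)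
  -- every element is a product
  have hprod : ∀ z : C, ∃ (n : N) (f : FreeGroup (Fin r)), q z = q (il n) * q (ir f) := by
    apply hind
    · intro n
      exact ⟨n, 1, by rw [map_one, map_one, mul_one]⟩
    · intro f
      exact ⟨1, f, by rw [map_one, map_one, one_mul]⟩
    · intro z z' h1 h2
      obtain ⟨n, f, h1⟩ := h1
      obtain ⟨n', f', h2⟩ := h2
      obtain ⟨n'', hn''⟩ := hn2 f (q (il n')) ⟨n', rfl⟩
      refine ⟨n * n'', f * f', ?_⟩
      have h3 : q (il n'') = q (ir f) * q (il n') * (q (ir f))⁻¹ := hn''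
      rw [map_mul, h1, h2, map_mul il, map_mul q, h3, map_mul ir, map_mul q]
      group
  -- relators
  have hrel : ∀ f ∈ ψ.ker, ∃ n : N, q (ir f) = q (il n) := by
    intro f hf
    rw [← hker] at hf
    let B : Subgroup (FreeGroup (Fin r)) := Nh.comap (q.comp ir)
    have hB : B.Normal := by
      constructor
      intro f hf g
      rw [Subgroup.mem_comap] at hf ⊢
      rw [map_mul, map_mul, map_inv]
      exact hn2 g _ hf
    have h1 : Subgroup.normalClosure R ≤ B := by
      apply Subgroup.normalClosure_le_normal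
      intro f hf
      refine ⟨ν ⟨f, hf⟩, ?_⟩
      symm
      change q (ir f) = q (il _)
      rw [hq]
      exact hTM (Or.inr (by rw [hT3]; exact ⟨⟨f, hf⟩, rfl⟩))
    obtain ⟨n, hn⟩ := h1 hf
    exact ⟨n, hn.symm⟩
  intro z hz
  obtain ⟨n, f, hz'⟩ := hprod z
  rw [MonoidHom.mem_ker] at hz
  have h1 : Θ z = D.ι n * L f := by
    have h2 : z * (il n * ir f)⁻¹ ∈ M := by
      rw [← hq, hz', map_mul]
    have h3 := hle h2
    rw [MonoidHom.mem_ker, map_mul, map_inv, mul_inv_eq_one] at h3
    rw [h3, map_mul, hΘl, hΘr]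
  have h2 : f ∈ ψ.ker := by
    rw [MonoidHom.mem_ker, ← hL']
    have h3 := congrArg D.π h1
    rw [hz, map_one, map_mul, D.π_ι, one_mul] at h3
    exact h3.symm
  obtain ⟨n', hn'⟩ := hrel f h2
  have h3 : q z = q (il (n * n')) := by
    rw [hz', hn', map_mul, map_mul]
  have h4 : n * n' = 1 := by
    apply D.ι_inj
    have h5 : z * (il (n * n'))⁻¹ ∈ M := by rw [← hq]; exact h3
    have h6 := hle h5
    rw [MonoidHom.mem_ker, map_mul, map_inv, mul_inv_eq_one, hz, hΘl] at h6
    rw [← h6, map_one]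
  rw [h4, map_one, map_one] at h3
  have h5 : z ∈ q.ker := h3
  rwa [hqk] at h5

/-- An extension of a finitely presented group by a finitely presented group is finitely
presented. -/
theorem Side.isFinitelyPresented {N G H : Type} [Group N] [Group G] [Group H] (D : Side N G H)
    [hN : Group.IsFinitelyPresented N] [hH : Group.IsFinitelyPresented H] :
    Group.IsFinitelyPresented G := by
  obtain ⟨a, φN, hφN, -⟩ := hN.out
  obtain ⟨r, ψ, hψ, R, hR, hker⟩ := hH.out
  choose y hy using fun j : Fin r => D.π_surj (ψ (FreeGroup.of j))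
  have hL : D.π.comp (FreeGroup.lift y) = ψ := by
    ext i
    simp [hy]
  have hL' : ∀ v, D.π (FreeGroup.lift y v) = ψ v := fun v => DFunLike.congr_fun hL v
  have hsurj : Function.Surjective (Monoid.Coprod.lift D.ι (FreeGroup.lift y)) := by
    intro g
    obtain ⟨f, hf⟩ := hψ (D.π g)
    obtain ⟨n, hn⟩ := D.decomp' g (FreeGroup.lift y f) (by rw [hL', hf])
    exact ⟨Monoid.Coprod.inr f * Monoid.Coprod.inl n, by
      rw [map_mul, Monoid.Coprod.lift_apply_inl, Monoid.Coprod.lift_apply_inr, hn]⟩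
  refine Group.IsFinitelyPresented.of_surjective (Monoid.Coprod.lift D.ι (FreeGroup.lift y)) hsurj
    (ext_aux D (fun i => φN (FreeGroup.of i)) (closure_range_of φN hφN) ψ R hR hker
      (FreeGroup.lift y) hL' _ Monoid.Coprod.inl Monoid.Coprod.inr ?_ _ ?_ ?_)
  · intro p h1 h2 h3 z
    induction z using Monoid.Coprod.induction_on with
    | inl n => exact h1 n
    | inr f => exact h2 f
    | mul z z' h h' => exact h3 z z' h h'
  · intro n
    exact Monoid.Coprod.lift_apply_inl _ _ _
  · intro f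
    exact Monoid.Coprod.lift_apply_inr _ _ _

end Pool.Agent.K9h89
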