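import Pool.Agent.K9h89.Init
import Pool.Agent.K9h89.FinPres

/-!
# Conversion to the explicit form of the finiteness conditions, and the fibre product
-/

set_option autoImplicit false
set_option linter.unusedSectionVars false

namespace Pool.Agent.K9h89

/-- The homological part of the explicit definition of type `F_m`. -/
def HP (m : ℕ) (G : Type) [Group G] : Prop :=
  ∃ (k : ℕ → ℕ) (ε : MonoidAlgebra ℤ G →+* ℤ)
    (d : ∀ i : ℕ, (Fin (k (i+1)) → MonoidAlgebra ℤ G) →ₗ[MonoidAlgebra ℤ G]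
      (Fin (k i) → MonoidAlgebra ℤ G)),
    (∀ g : G, ε (MonoidAlgebra.of ℤ G g) = 1) ∧
    (∃ x : Fin (k 0) → MonoidAlgebra ℤ G, ∑ j, ε (x j) = 1) ∧
    (0 < m → ∀ x : Fin (k 0) → MonoidAlgebra ℤ G,
      (∑ j, ε (x j) = 0 ↔ x ∈ LinearMap.range (d 0))) ∧
    (∀ j : ℕ, j + 2 ≤ m → LinearMap.range (d (j+1)) = LinearMap.ker (d j))

/-- The sum of the augmentations. -/
noncomputable def augS (G : Type) [Group G] (k : ℕ) : (Fin k → ZG G) →ₗ[ZG G] Tr G where
  toFun x := ∑ j, aug G (x j)
  map_add' x y := by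
    change ∑ j, aug G ((x + y) j) = (∑ j, aug G (x j)) + ∑ j, aug G (y j)
    rw [← Finset.sum_add_distrib]
    exact Finset.sum_congr rfl fun j _ => map_add (aug G) _ _
  map_smul' a x := by
    change ∑ j, aug G ((a • x) j) = aug G a * ∑ j, aug G (x j)
    rw [Finset.mul_sum]
    exact Finset.sum_congr rfl fun j _ => map_mul (aug G) _ _

theorem HP.fpn {m : ℕ} {G : Type} [Group G] (h : HP m G) : FPn (ZG G) (m + 1) (Tr G) := by
  obtain ⟨k, ε, d, h1, ⟨x0, hx0⟩, h3, h4⟩ := h
  obtain rfl := aug_eq ε h1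
  have hs : Function.Surjective (augS G (k 0)) := by
    intro z
    refine ⟨(show ℤ from z) • x0, ?_⟩
    have h : ∑ j, aug G (((show ℤ from z) • x0) j) = (show ℤ from z) := by
      have h' : ∀ j, aug G (((show ℤ from z) • x0) j) = (show ℤ from z) * aug G (x0 j) := by
        intro j
        rw [Pi.smul_apply, map_zsmul, smul_eq_mul]
      rw [Finset.sum_congr rfl fun j _ => h' j, ← Finset.mul_sum, hx0, mul_one]
    exact h
  refine ⟨k 0, augS G (k 0), hs, ?_⟩
  have key : ∀ r i : ℕ, i + r = m → FPn (ZG G) r (LinearMap.range (d i)) := by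
    intro r
    induction r with
    | zero => intro i _; trivial
    | succ r ih =>
      intro i hi
      refine ⟨k (i + 1), (d i).rangeRestrict, LinearMap.surjective_rangeRestrict _, ?_⟩
      rw [LinearMap.ker_rangeRestrict]
      cases r with
      | zero => trivial
      | succ r =>
        rw [← h4 i (by omega)]
        exact ih (i + 1) (by omega)
  cases m with
  | zero => trivial
  | succ m =>
    have h5 : LinearMap.ker (augS G (k 0)) = LinearMap.range (d 0) := by
      ext x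
      rw [← h3 (Nat.succ_pos _) x, LinearMap.mem_ker]
      exact Iff.rfl
    rw [h5]
    exact key _ 0 (by omega)

theorem exists_res {R : Type} [Ring R] (m : ℕ) : ∀ {M : Type} [AddCommGroup M] [Module R M]
    (k0 : ℕ) (a0 : (Fin k0 → R) →ₗ[R] M) (_ : FPn R m (LinearMap.ker a0)),
    ∃ (k' : ℕ → ℕ) (a' : (Fin (k' 0) → R) →ₗ[R] (Fin k0 → R))
      (d' : ∀ i, (Fin (k' (i + 1)) → R) →ₗ[R] (Fin (k' i) → R)),
      (0 < m → LinearMap.range a' = LinearMap.ker a0) ∧
      (1 < m → LinearMap.range (d' 0) = LinearMap.ker a') ∧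
      ∀ j, j + 3 ≤ m → LinearMap.range (d' (j + 1)) = LinearMap.ker (d' j) := by
  induction m with
  | zero =>
    intro M _ _ k0 a0 _
    exact ⟨fun _ => 0, 0, fun _ => 0, fun h => by omega, fun h => by omega, fun j h => by omega⟩
  | succ m ih =>
    intro M _ _ k0 a0 h
    obtain ⟨k1, f, hf, hk⟩ := h
    obtain ⟨k', a', d', h1, h2, h3⟩ := ih k1 ((LinearMap.ker a0).subtype ∘ₗ f) (by
      rwa [LinearMap.ker_comp_of_ker_eq_bot _ (Submodule.ker_subtype _)])
    refine ⟨fun i => Nat.casesOn i k1 k', (LinearMap.ker a0).subtype ∘ₗ f,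
      fun i => match i with
        | 0 => a'
        | i + 1 => d' i, ?_, ?_, ?_⟩
    · intro _
      rw [LinearMap.range_comp, LinearMap.range_eq_top.2 hf, Submodule.map_top,
        Submodule.range_subtype]
    · intro hm
      exact h1 (by omega)
    · intro j hj
      cases j with
      | zero => exact h2 (by omega)
      | succ j => exact h3 j (by omega)

theorem hp_of_fpn {m : ℕ} {G : Type} [Group G] (h : FPn (ZG G) (m + 1) (Tr G)) : HP m G := by
  have h1 : FPn (ZG G) m (LinearMap.ker (augS G 1)) := by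
    refine FPn.ker (augS G 1) ?_ (FPn.free _ _) h
    intro z
    obtain ⟨x, hx⟩ := aug1_surj G z
    refine ⟨x, ?_⟩
    rw [← hx]
    change ∑ j, aug G (x j) = aug G (x 0)
    simp
  obtain ⟨k', a', d', h2, h3, h4⟩ := exists_res m 1 (augS G 1) h1
  refine ⟨fun i => Nat.casesOn i 1 k', aug G, fun i => match i with
        | 0 => a'
        | i + 1 => d' i, ?_, ?_, ?_, ?_⟩
  · intro g
    rw [MonoidAlgebra.of_apply]
    exact aug_gr g
  · refine ⟨fun _ => 1, ?_⟩
    change ∑ j : Fin 1, aug G 1 = 1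
    simp
  · intro hm x
    change _ ↔ x ∈ LinearMap.range a'
    rw [h2 hm, LinearMap.mem_ker]
    exact Iff.rfl
  · intro j hj
    cases j with
    | zero => exact h3 (by omega)
    | succ j => exact h4 j (by omega)

/-- The finite presentation part of the explicit definition. -/
theorem fp_iff (G : Type) [Group G] :
    (∃ (r : ℕ) (f : FreeGroup (Fin r) →* G) (S : Finset (FreeGroup (Fin r))),
      Function.Surjective f ∧ f.ker = Subgroup.normalClosure (↑S : Set (FreeGroup (Fin r)))) ↔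
    Group.IsFinitelyPresented G := by
  constructor
  · rintro ⟨r, f, S, hf, hS⟩
    exact ⟨r, f, hf, S, S.finite_toSet, hS.symm⟩
  · rintro ⟨r, f, hf, S, hS, h⟩
    exact ⟨r, f, hS.toFinset, hf, by rw [Set.Finite.coe_toFinset, h]⟩

section fibre

variable {Γ₁ Γ₂ Q : Type} [Group Γ₁] [Group Γ₂] [Group Q] (π₁ : Γ₁ →* Q) (π₂ : Γ₂ →* Q)

/-- The fibre product. -/
abbrev FP : Subgroup (Γ₁ × Γ₂) :=
  MonoidHom.eqLocus (π₁.comp (MonoidHom.fst Γ₁ Γ₂)) (π₂.comp (MonoidHom.snd Γ₁ Γ₂))

theorem mem_FP (x : Γ₁ × Γ₂) : x ∈ FP π₁ π₂ ↔ π₁ x.1 = π₂ x.2 := Iff.rfl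

/-- The side `1 → ker π₁ → Γ₁ → Q → 1`. -/
def sideG (h₁ : Function.Surjective π₁) : Side π₁.ker Γ₁ Q where
  ι := π₁.ker.subtype
  π := π₁
  ι_inj := π₁.ker.subtype_injective
  π_surj := h₁
  exact g := ⟨fun h => ⟨⟨g, h⟩, rfl⟩, by rintro ⟨n, rfl⟩; exact n.2⟩

/-- The side `1 → ker π₁ → P → Γ₂ → 1`. -/
def sideP (h₁ : Function.Surjective π₁) : Side π₁.ker (FP π₁ π₂) Γ₂ where
  ι := ((MonoidHom.inl Γ₁ Γ₂).comp π₁.ker.subtype).codRestrict _ (by
    rintro ⟨n, hn⟩
    rw [mem_FP]
    change π₁ n = π₂ 1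
    rw [map_one]; exact hn)
  π := (MonoidHom.snd Γ₁ Γ₂).comp (FP π₁ π₂).subtype
  ι_inj := by
    intro a b h
    have h1 := congrArg (fun z : FP π₁ π₂ => z.1.1) h
    exact Subtype.ext h1
  π_surj := by
    intro y
    obtain ⟨x, hx⟩ := h₁ (π₂ y)
    exact ⟨⟨(x, y), hx⟩, rfl⟩
  exact := by
    rintro ⟨⟨x, y⟩, hxy⟩
    constructor
    · intro h
      have hy : y = 1 := h
      subst hy
      have hx : π₁ x = 1 := by
        rw [mem_FP] at hxy
        simpa using hxy
      exact ⟨⟨x, hx⟩, rfl⟩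
    · rintro ⟨n, hn⟩
      have h1 := congrArg (fun z : FP π₁ π₂ => z.1.2) hn
      exact h1.symm

/-- The homological part for fibre products. -/
theorem fibre_fpn (h₁ : Function.Surjective π₁) (h₂ : Function.Surjective π₂)
    [hQ : Group.IsFinitelyPresented Q] [hG2 : Group.IsFinitelyPresented Γ₂] (n : ℕ)
    (hN : FPn (ZG π₁.ker) (n + 1) (Tr π₁.ker)) (hΓ : FPn (ZG Γ₁) (n + 2) (Tr Γ₁))
    (hH : FPn (ZG Γ₂) (n + 2) (Tr Γ₂)) (hQ' : FPn (ZG Q) (n + 3) (Tr Q)) :
    FPn (ZG (FP π₁ π₂)) (n + 2) (Tr (FP π₁ π₂)) := by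
  classical
  obtain ⟨r, φ, hφ, -⟩ := hG2.out
  have hgen : Subgroup.closure (Set.range fun i => φ (FreeGroup.of i)) = ⊤ :=
    closure_range_of φ hφ
  obtain ⟨R, hR, hRker⟩ := ker_fng (fun i => φ (FreeGroup.of i)) hgen π₂ h₂
  -- lifts of the generators
  choose x hx using fun i : Fin r => h₁ (π₂ (φ (FreeGroup.of i)))
  let y : Fin r → FP π₁ π₂ := fun i => ⟨(x i, φ (FreeGroup.of i)), hx i⟩
  let S := Fin r × Bool
  let t : S → FP π₁ π₂ := fun s => if s.2 then y s.1 else (y s.1)⁻¹
  let DP := sideP π₁ π₂ h₁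
  let DG := sideG π₁ h₁
  let f : FP π₁ π₂ →* Γ₁ := (MonoidHom.fst Γ₁ Γ₂).comp (FP π₁ π₂).subtype
  let c : S → π₁.ker →* π₁.ker := fun s => (MulAut.conjNormal (f (t s))).toMonoidHom
  -- generation
  have hinv : ∀ s : S, ∃ s' : S, t s' = (t s)⁻¹ := by
    rintro ⟨i, b⟩
    refine ⟨(i, !b), ?_⟩
    cases b <;> simp [t]
  have hword : ∀ z : Γ₂, ∃ l : List S, DP.π (gw t l) = z := by
    intro z
    have hz : z ∈ Subgroup.closure (Set.range fun i => φ (FreeGroup.of i)) := by
      rw [hgen]; trivial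
    have hmul : ∀ l l' : List S, gw t (l ++ l') = gw t l * gw t l' := by
      intro l l'
      induction l with
      | nil => rw [List.nil_append, gw, one_mul]
      | cons s l ih => rw [List.cons_append, gw, gw, ih, mul_assoc]
    induction hz using Subgroup.closure_induction with
    | mem z hz =>
      obtain ⟨i, rfl⟩ := hz
      refine ⟨[(i, true)], ?_⟩
      change DP.π (t (i, true) * 1) = _
      rw [mul_one]; rfl
    | one => exact ⟨[], map_one _⟩
    | mul z z' _ _ h h' =>
      obtain ⟨l, rfl⟩ := h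
      obtain ⟨l', rfl⟩ := h'
      exact ⟨l ++ l', by rw [hmul, map_mul]⟩
    | inv z _ h =>
      obtain ⟨l, rfl⟩ := h
      have : ∀ l : List S, ∃ l' : List S, gw t l' = (gw t l)⁻¹ := by
        intro l
        induction l with
        | nil => exact ⟨[], by rw [gw, inv_one]⟩
        | cons s l ih =>
          obtain ⟨l', hl'⟩ := ih
          obtain ⟨s', hs'⟩ := hinv s
          refine ⟨l' ++ [s'], ?_⟩
          rw [hmul, hl', gw, gw, gw, mul_one, hs', mul_inv_rev]
      obtain ⟨l', hl'⟩ := this l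
      exact ⟨l', by rw [hl', map_inv]⟩
  have hgw : ∀ l : List S, gw t l ∈ Submonoid.closure (Set.range DP.ι ∪ Set.range t) := by
    intro l
    induction l with
    | nil => exact Submonoid.one_mem _
    | cons s l ih =>
      exact Submonoid.mul_mem _ (Submonoid.subset_closure (Or.inr ⟨s, rfl⟩)) ih
  have hgenP : Submonoid.closure (Set.range DP.ι ∪ Set.range t) = ⊤ := by
    rw [eq_top_iff]
    intro u _
    obtain ⟨l, hl⟩ := hword (DP.π u)
    obtain ⟨n, hn⟩ := DP.decomp' u (gw t l) hl.symm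
    rw [hn]
    exact Submonoid.mul_mem _ (hgw l) (Submonoid.subset_closure (Or.inl ⟨n, rfl⟩))
  -- the relators
  have : Finite R := hR
  have hR2 : ∀ o : R, π₂ (o : Γ₂) = 1 := by
    intro o
    have : (o : Γ₂) ∈ π₂.ker := by
      rw [← hRker]; exact Subgroup.subset_normalClosure o.2
    exact this
  choose w hw using fun o : R => hword (o : Γ₂)
  let κ : R → FP π₁ π₂ := fun o => ⟨(1, (o : Γ₂)), by
    rw [mem_FP]
    change π₁ 1 = π₂ o
    rw [map_one, hR2]⟩
  have hν1 : ∀ o : R, ∃ n : π₁.ker, gw t (w o) = DP.ι n * κ o := by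
    intro o
    have h3 : DP.π (gw t (w o) * (κ o)⁻¹) = 1 := by
      rw [map_mul, hw, map_inv]
      change (o : Γ₂) * (o : Γ₂)⁻¹ = 1
      rw [mul_inv_cancel]
    obtain ⟨n, hn⟩ := (DP.exact _).1 h3
    exact ⟨n, by rw [hn]; group⟩
  choose ν hν using hν1
  have hcw : ∀ (l : List S) (n : π₁.ker), ((cw c l n : π₁.ker) : Γ₁) =
      f (gw t l) * n * (f (gw t l))⁻¹ := by
    intro l
    induction l with
    | nil => intro n; simp [cw, gw]
    | cons s l ih =>
      intro n
      have h1 : ((cw c (s :: l) n : π₁.ker) : Γ₁) =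
        f (t s) * (cw c l n : π₁.ker) * (f (t s))⁻¹ := rfl
      rw [h1, ih, gw, map_mul]
      group
  let K : Dat π₁.ker (FP π₁ π₂) Γ₂ Γ₁ Q S R :=
    { DP := DP
      DG := DG
      f := f
      f_surj := by
        intro a
        obtain ⟨b, hb⟩ := h₂ (π₁ a)
        exact ⟨⟨(a, b), hb.symm⟩, rfl⟩
      f_ι := fun n => rfl
      t := t
      c := c
      act := by
        intro s n
        apply Subtype.ext
        apply Prod.ext
        · change f (t s) * (n : Γ₁) = (f (t s) * n * (f (t s))⁻¹) * f (t s)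
          group
        · change DP.π (t s) * 1 = 1 * DP.π (t s)
          rw [mul_one, one_mul]
      gen := hgenP
      w := w
      ν := ν
      κ := κ
      hw := hν
      ker := by
        let B : Subgroup Γ₂ := (Subgroup.normalClosure (Set.range κ) ⊓ f.ker).map DP.π
        have hB : B.Normal := by
          constructor
          rintro _ ⟨u, ⟨hu1, hu2⟩, rfl⟩ g
          obtain ⟨v, rfl⟩ := DP.π_surj g
          refine ⟨v * u * v⁻¹, ⟨Subgroup.normalClosure_normal.conj_mem u hu1 v, ?_⟩, ?_⟩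
          · exact (MonoidHom.normal_ker f).conj_mem u hu2 v
          · rw [map_mul, map_mul, map_inv]
        have hB2 : Subgroup.normalClosure R ≤ B := by
          apply Subgroup.normalClosure_le_normal
          intro o ho
          exact ⟨κ ⟨o, ho⟩, ⟨Subgroup.subset_normalClosure ⟨⟨o, ho⟩, rfl⟩, rfl⟩, rfl⟩
        rintro ⟨⟨a, b⟩, hab⟩ hf
        have ha : a = 1 := hf
        subst ha
        have hb : b ∈ π₂.ker := by
          rw [mem_FP] at hab
          change π₂ b = 1
          rw [← map_one π₁]; exact hab.symm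
        rw [← hRker] at hb
        obtain ⟨u, ⟨hu1, hu2⟩, hu3⟩ := hB2 hb
        have : u = ⟨(1, b), hab⟩ := by
          apply Subtype.ext
          apply Prod.ext
          · exact hu2
          · exact hu3
        rw [← this]
        exact hu1
      hν := by
        intro o n
        apply Subtype.ext
        rw [hcw, hν, map_mul]
        have h1 : f (κ o) = 1 := rfl
        rw [h1, mul_one]
        rfl }
  have ht : Subgroup.closure (Set.range fun s => K.DP.π (K.t s)) = ⊤ := by
    rw [eq_top_iff, ← hgen, Subgroup.closure_le]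
    rintro _ ⟨i, rfl⟩
    exact Subgroup.subset_closure ⟨(i, true), rfl⟩
  have ht' : Subgroup.closure (Set.range fun s => K.DG.π (K.f (K.t s))) = ⊤ := by
    have h1 : (fun s => K.DG.π (K.f (K.t s))) = fun s => π₂ (K.DP.π (K.t s)) := by
      funext s
      exact (K.t s).2
    rw [h1]
    have h2 : Set.range (fun s => π₂ (K.DP.π (K.t s))) =
        π₂ '' (Set.range fun s => K.DP.π (K.t s)) := by
      rw [← Set.range_comp]; rfl
    rw [h2, ← MonoidHom.map_closure, ht, ← MonoidHom.range_eq_map, MonoidHom.range_eq_top.2 h₂]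
  exact K.fpn ht ht' n hN hΓ hH hQ'

end fibre

end Pool.Agent.K9h89
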