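import Mathlib

/-!
# Finiteness conditions `FP_n` for modules over a ring

`FPn R n M` says that the left `R`-module `M` is of type `FP_{n-1}`.
-/

set_option autoImplicit false

namespace Pool.Agent.K9h89

universe u

/-- `FPn R n M`: there is an exact sequence `F_{n-1} → ... → F_0 → M → 0` with finitely generated
free modules `F_i`, that is, `M` is of type `FP_{n-1}` over `R`. -/
def FPn (R : Type u) [Ring R] : ℕ → ∀ (M : Type u) [AddCommGroup M] [Module R M], Prop
  | 0, _, _, _ => True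
  | n + 1, M, _, _ => ∃ (k : ℕ) (f : (Fin k → R) →ₗ[R] M),
      Function.Surjective f ∧ FPn R n (LinearMap.ker f)

variable {R : Type u} [Ring R]

theorem FPn.of_equiv {n : ℕ} {M M' : Type u} [AddCommGroup M] [Module R M] [AddCommGroup M']
    [Module R M'] (e : M ≃ₗ[R] M') (h : FPn R n M) : FPn R n M' := by
  cases n with
  | zero => trivial
  | succ n =>
    obtain ⟨k, f, hf, hk⟩ := h
    refine ⟨k, e.toLinearMap ∘ₗ f, e.surjective.comp hf, ?_⟩
    rwa [LinearEquiv.ker_comp]

theorem FPn.congr {n : ℕ} {M M' : Type u} [AddCommGroup M] [Module R M] [AddCommGroup M']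
    [Module R M'] (e : M ≃ₗ[R] M') : FPn R n M ↔ FPn R n M' :=
  ⟨fun h => h.of_equiv e, fun h => h.of_equiv e.symm⟩

theorem FPn.of_subsingleton (n : ℕ) (M : Type u) [AddCommGroup M] [Module R M] [Subsingleton M] :
    FPn R n M := by
  induction n generalizing M with
  | zero => trivial
  | succ n ih =>
    exact ⟨0, 0, fun x => ⟨0, Subsingleton.elim _ _⟩, ih _⟩

theorem FPn.free (n k : ℕ) : FPn R n (Fin k → R) := by
  cases n with
  | zero => trivial
  | succ n =>
    refine ⟨k, LinearMap.id, Function.surjective_id, ?_⟩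
    have : Subsingleton (LinearMap.ker (LinearMap.id : (Fin k → R) →ₗ[R] (Fin k → R))) := by
      rw [LinearMap.ker_id]; infer_instance
    exact FPn.of_subsingleton n _

/-- `F` is a finitely generated free module. -/
def FF (R : Type u) [Ring R] (F : Type u) [AddCommGroup F] [Module R F] : Prop :=
  ∃ k : ℕ, Nonempty (F ≃ₗ[R] (Fin k → R))

theorem FF.fin (k : ℕ) : FF R (Fin k → R) := ⟨k, ⟨LinearEquiv.refl _ _⟩⟩

theorem FF.of_equiv {M M' : Type u} [AddCommGroup M] [Module R M] [AddCommGroup M']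
    [Module R M'] (e : M ≃ₗ[R] M') (h : FF R M) : FF R M' := by
  obtain ⟨k, ⟨f⟩⟩ := h
  exact ⟨k, ⟨e.symm.trans f⟩⟩

theorem FF.of_fintype (ι : Type) [Finite ι] : FF R (ι → R) := by
  cases nonempty_fintype ι
  exact ⟨Fintype.card ι, ⟨LinearEquiv.funCongrLeft R R (Fintype.equivFin ι).symm⟩⟩

theorem FF.prod {M M' : Type u} [AddCommGroup M] [Module R M] [AddCommGroup M']
    [Module R M'] (h : FF R M) (h' : FF R M') : FF R (M × M') := by
  obtain ⟨k, ⟨f⟩⟩ := h
  obtain ⟨k', ⟨f'⟩⟩ := h'
  exact FF.of_equiv ((LinearEquiv.sumArrowLequivProdArrow (Fin k) (Fin k') R R).trans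
    (f.prodCongr f').symm) (FF.of_fintype (Fin k ⊕ Fin k'))

theorem FF.pi (ι : Type) [Finite ι] {M : Type u} [AddCommGroup M] [Module R M] (h : FF R M) :
    FF R (ι → M) := by
  obtain ⟨k, ⟨f⟩⟩ := h
  have e1 : (ι × Fin k → R) ≃ₗ[R] (ι → Fin k → R) := LinearEquiv.curry R R ι (Fin k)
  exact FF.of_equiv (e1.trans (LinearEquiv.piCongrRight fun _ => f.symm))
    (FF.of_fintype (ι × Fin k))

theorem FF.fpn {M : Type u} [AddCommGroup M] [Module R M] (h : FF R M) (n : ℕ) : FPn R n M := by
  obtain ⟨k, ⟨f⟩⟩ := h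
  exact (FPn.free n k).of_equiv f.symm

theorem FF.projective {M : Type u} [AddCommGroup M] [Module R M] (h : FF R M) :
    Module.Projective R M := by
  obtain ⟨k, ⟨f⟩⟩ := h
  exact Module.Projective.of_equiv f.symm

theorem FPn.of_ff {n : ℕ} {F M : Type u} [AddCommGroup M] [Module R M] [AddCommGroup F]
    [Module R F] (hF : FF R F) (f : F →ₗ[R] M) (hf : Function.Surjective f)
    (hk : FPn R n (LinearMap.ker f)) : FPn R (n + 1) M := by
  obtain ⟨k, ⟨e⟩⟩ := hF
  refine ⟨k, f ∘ₗ e.symm.toLinearMap, hf.comp e.symm.surjective, ?_⟩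
  refine hk.of_equiv ?_
  exact (e.submoduleMap (LinearMap.ker f)).trans (LinearEquiv.ofEq _ _ (by
    ext x
    simp only [Submodule.mem_map, LinearMap.mem_ker, LinearMap.comp_apply, LinearEquiv.coe_coe]
    constructor
    · rintro ⟨y, hy, rfl⟩
      simpa using hy
    · intro h
      exact ⟨e.symm x, h, by simp⟩))

theorem FPn.mono {n : ℕ} {M : Type u} [AddCommGroup M] [Module R M] (h : FPn R (n + 1) M) :
    FPn R n M := by
  induction n generalizing M with
  | zero => trivial
  | succ n ih =>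
    obtain ⟨k, f, hf, hk⟩ := h
    exact ⟨k, f, hf, ih hk⟩

theorem FPn.mono_le {n m : ℕ} (hnm : n ≤ m) {M : Type u} [AddCommGroup M] [Module R M]
    (h : FPn R m M) : FPn R n M := by
  induction m, hnm using Nat.le_induction with
  | base => exact h
  | succ m _ ih => exact ih h.mono

/-- Extensions. -/
theorem FPn.ext_ker {n : ℕ} {B C : Type u} [AddCommGroup B] [Module R B] [AddCommGroup C]
    [Module R C] (p : B →ₗ[R] C) (hp : Function.Surjective p)
    (hA : FPn R n (LinearMap.ker p)) (hC : FPn R n C) : FPn R n B := by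
  induction n generalizing B C with
  | zero => trivial
  | succ n ih =>
    obtain ⟨a, fA, hfA, hkA⟩ := hA
    obtain ⟨c, fC, hfC, hkC⟩ := hC
    obtain ⟨l, hl⟩ := Module.projective_lifting_property p fC hp
    have hl' : ∀ x, p (l x) = fC x := fun x => LinearMap.congr_fun hl x
    let F : ((Fin a → R) × (Fin c → R)) →ₗ[R] B :=
      LinearMap.coprod ((LinearMap.ker p).subtype ∘ₗ fA) l
    have hF : ∀ x y, F (x, y) = (fA x : B) + l y := fun x y => by simp [F]
    have hFs : Function.Surjective F := by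
      intro b
      obtain ⟨y, hy⟩ := hfC (p b)
      have hb : b - l y ∈ LinearMap.ker p := by
        rw [LinearMap.mem_ker, map_sub, hl', hy, sub_self]
      obtain ⟨x, hx⟩ := hfA ⟨b - l y, hb⟩
      exact ⟨(x, y), by rw [hF, hx]; simp⟩
    refine FPn.of_ff (FF.prod (FF.fin a) (FF.fin c)) F hFs ?_
    -- the kernel
    let q : LinearMap.ker F →ₗ[R] LinearMap.ker fC :=
      LinearMap.codRestrict _ (LinearMap.snd R _ _ ∘ₗ (LinearMap.ker F).subtype) (by
        rintro ⟨⟨x, y⟩, hxy⟩
        rw [LinearMap.mem_ker, hF] at hxy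
        have := congrArg p hxy
        rw [map_add, map_zero, hl', LinearMap.mem_ker.1 (fA x).2, zero_add] at this
        exact this)
    have hq : Function.Surjective q := by
      rintro ⟨y, hy⟩
      have hly : l y ∈ LinearMap.ker p := by
        rw [LinearMap.mem_ker, hl']; exact hy
      obtain ⟨x, hx⟩ := hfA (-⟨l y, hly⟩)
      exact ⟨⟨(x, y), by rw [LinearMap.mem_ker, hF, hx]; simp⟩, rfl⟩
    refine ih q hq ?_ hkC
    refine hkA.of_equiv ?_
    refine LinearEquiv.ofBijective (LinearMap.codRestrict _ (LinearMap.codRestrict _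
      (LinearMap.inl R (Fin a → R) (Fin c → R) ∘ₗ (LinearMap.ker fA).subtype) ?_) ?_) ⟨?_, ?_⟩
    · rintro ⟨x, hx⟩
      rw [LinearMap.mem_ker] at hx
      simp [hF, hx]
    · rintro ⟨x, hx⟩
      rw [LinearMap.mem_ker]
      apply Subtype.ext
      simp [q]
    · rintro ⟨x, hx⟩ ⟨y, hy⟩ h
      have h1 := congrArg (fun z => z.1.1.1) h
      exact Subtype.ext h1
    · rintro ⟨⟨⟨x, y⟩, hxy⟩, hq'⟩
      have hy : y = 0 := congrArg Subtype.val (LinearMap.mem_ker.1 hq')
      subst hy
      have hx : fA x = 0 := by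
        rw [LinearMap.mem_ker, hF] at hxy
        apply Subtype.ext
        simpa using hxy
      exact ⟨⟨x, hx⟩, rfl⟩

/-- Quotients. -/
theorem FPn.quot_ker {n : ℕ} {B C : Type u} [AddCommGroup B] [Module R B] [AddCommGroup C]
    [Module R C] (p : B →ₗ[R] C) (hp : Function.Surjective p)
    (hA : FPn R n (LinearMap.ker p)) (hB : FPn R (n + 1) B) : FPn R (n + 1) C := by
  obtain ⟨b, f, hf, hk⟩ := hB
  refine ⟨b, p ∘ₗ f, hp.comp hf, ?_⟩
  let q : LinearMap.ker (p ∘ₗ f) →ₗ[R] LinearMap.ker p :=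
    LinearMap.codRestrict _ (f ∘ₗ (LinearMap.ker (p ∘ₗ f)).subtype) (fun x => x.2)
  have hq : Function.Surjective q := by
    rintro ⟨y, hy⟩
    obtain ⟨x, rfl⟩ := hf y
    exact ⟨⟨x, hy⟩, rfl⟩
  refine FPn.ext_ker q hq ?_ hA
  refine hk.of_equiv ?_
  refine LinearEquiv.ofBijective (LinearMap.codRestrict _ (LinearMap.codRestrict _
    (LinearMap.ker f).subtype ?_) ?_) ⟨?_, ?_⟩
  · rintro ⟨x, hx⟩
    rw [LinearMap.mem_ker] at hx
    simp [hx]
  · rintro ⟨x, hx⟩
    rw [LinearMap.mem_ker]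
    apply Subtype.ext
    exact hx
  · rintro ⟨x, hx⟩ ⟨y, hy⟩ h
    have h1 := congrArg (fun z => z.1.1) h
    exact Subtype.ext h1
  · rintro ⟨⟨x, hx⟩, hx'⟩
    have : f x = 0 := congrArg Subtype.val (LinearMap.mem_ker.1 hx')
    exact ⟨⟨x, this⟩, rfl⟩

/-- Kernels. -/
theorem FPn.ker {n : ℕ} {B C : Type u} [AddCommGroup B] [Module R B] [AddCommGroup C]
    [Module R C] (p : B →ₗ[R] C) (hp : Function.Surjective p)
    (hB : FPn R n B) (hC : FPn R (n + 1) C) : FPn R n (LinearMap.ker p) := by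
  cases n with
  | zero => trivial
  | succ n =>
    obtain ⟨b, f, hf, hkB⟩ := hB
    obtain ⟨c, g, hg, hL⟩ := hC
    have hpf : Function.Surjective (p ∘ₗ f) := hp.comp hf
    let Q : ((Fin b → R) × (Fin c → R)) →ₗ[R] C := LinearMap.coprod (p ∘ₗ f) (-g)
    have hQ : ∀ x y, Q (x, y) = p (f x) - g y := fun x y => by simp [Q, sub_eq_add_neg]
    -- projection to the first factor
    let q1 : LinearMap.ker Q →ₗ[R] (Fin b → R) := LinearMap.fst R _ _ ∘ₗ (LinearMap.ker Q).subtype
    have hq1 : Function.Surjective q1 := by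
      intro x
      obtain ⟨y, hy⟩ := hg (p (f x))
      exact ⟨⟨(x, y), by rw [LinearMap.mem_ker, hQ, hy, sub_self]⟩, rfl⟩
    have hE : FPn R (n + 1) (LinearMap.ker Q) := by
      refine FPn.ext_ker q1 hq1 ?_ (FPn.free _ _)
      refine hL.of_equiv ?_
      refine LinearEquiv.ofBijective (LinearMap.codRestrict _ (LinearMap.codRestrict _
        (LinearMap.inr R (Fin b → R) (Fin c → R) ∘ₗ (LinearMap.ker g).subtype) ?_) ?_) ⟨?_, ?_⟩
      · rintro ⟨x, hx⟩
        rw [LinearMap.mem_ker] at hx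
        simp [hQ, hx]
      · rintro ⟨x, hx⟩
        rw [LinearMap.mem_ker]
        simp [q1]
      · rintro ⟨x, hx⟩ ⟨y, hy⟩ h
        have h1 := congrArg (fun z => z.1.1.2) h
        exact Subtype.ext h1
      · rintro ⟨⟨⟨x, y⟩, hxy⟩, hq'⟩
        have hx : x = 0 := LinearMap.mem_ker.1 hq'
        subst hx
        have hy : g y = 0 := by
          rw [LinearMap.mem_ker, hQ] at hxy
          simpa using hxy
        exact ⟨⟨y, hy⟩, rfl⟩
    -- the kernel of `p ∘ f`
    obtain ⟨h, hh⟩ := Module.projective_lifting_property (p ∘ₗ f) g hpf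
    have hh' : ∀ y, p (f (h y)) = g y := fun x => LinearMap.congr_fun hh x
    let q2 : LinearMap.ker Q →ₗ[R] LinearMap.ker (p ∘ₗ f) :=
      LinearMap.codRestrict _ ((LinearMap.fst R _ _ - h ∘ₗ LinearMap.snd R _ _) ∘ₗ
        (LinearMap.ker Q).subtype) (by
        rintro ⟨⟨x, y⟩, hxy⟩
        rw [LinearMap.mem_ker, hQ] at hxy
        simp [hh', hxy])
    have hq2 : Function.Surjective q2 := by
      rintro ⟨x, hx⟩
      refine ⟨⟨(x, 0), ?_⟩, ?_⟩
      · rw [LinearMap.mem_ker, hQ, map_zero, sub_zero]; exact hx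
      · apply Subtype.ext
        simp [q2]
    have hKC : FPn R (n + 1) (LinearMap.ker (p ∘ₗ f)) := by
      refine FPn.quot_ker q2 hq2 ?_ hE
      refine (FPn.free n c).of_equiv ?_
      refine LinearEquiv.ofBijective (LinearMap.codRestrict _ (LinearMap.codRestrict _
        (LinearMap.prod h LinearMap.id) ?_) ?_) ⟨?_, ?_⟩
      · intro y
        rw [LinearMap.mem_ker]
        simp [hQ, hh']
      · intro y
        rw [LinearMap.mem_ker]
        apply Subtype.ext
        simp [q2]
      · intro x y hxy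
        have h1 := congrArg (fun z => z.1.1.2) hxy
        exact h1
      · rintro ⟨⟨⟨x, y⟩, hxy⟩, hq'⟩
        have hx : x - h y = 0 := congrArg Subtype.val (LinearMap.mem_ker.1 hq')
        refine ⟨y, ?_⟩
        apply Subtype.ext
        apply Subtype.ext
        simp [sub_eq_zero.1 hx]
    -- finally
    let q3 : LinearMap.ker (p ∘ₗ f) →ₗ[R] LinearMap.ker p :=
      LinearMap.codRestrict _ (f ∘ₗ (LinearMap.ker (p ∘ₗ f)).subtype) (fun x => x.2)
    have hq3 : Function.Surjective q3 := by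
      rintro ⟨y, hy⟩
      obtain ⟨x, rfl⟩ := hf y
      exact ⟨⟨x, hy⟩, rfl⟩
    refine FPn.quot_ker q3 hq3 ?_ hKC
    refine hkB.of_equiv ?_
    refine LinearEquiv.ofBijective (LinearMap.codRestrict _ (LinearMap.codRestrict _
      (LinearMap.ker f).subtype ?_) ?_) ⟨?_, ?_⟩
    · rintro ⟨x, hx⟩
      rw [LinearMap.mem_ker] at hx
      simp [hx]
    · rintro ⟨x, hx⟩
      rw [LinearMap.mem_ker]
      apply Subtype.ext
      exact hx
    · rintro ⟨x, hx⟩ ⟨y, hy⟩ h
      have h1 := congrArg (fun z => z.1.1) h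
      exact Subtype.ext h1
    · rintro ⟨⟨x, hx⟩, hx'⟩
      have : f x = 0 := congrArg Subtype.val (LinearMap.mem_ker.1 hx')
      exact ⟨⟨x, this⟩, rfl⟩

theorem FPn.finite {n : ℕ} {M : Type u} [AddCommGroup M] [Module R M] (h : FPn R (n + 1) M) :
    Module.Finite R M := by
  obtain ⟨k, f, hf, -⟩ := h
  exact Module.Finite.of_surjective f hf

theorem FPn.one_iff {M : Type u} [AddCommGroup M] [Module R M] :
    FPn R 1 M ↔ Module.Finite R M := by
  constructor
  · exact fun h => h.finite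
  · intro h
    obtain ⟨k, f, hf⟩ := Module.Finite.exists_fin' R M
    exact ⟨k, f, hf, trivial⟩

/-- Finite powers. -/
theorem FPn.pi {n : ℕ} {M : Type u} [AddCommGroup M] [Module R M] (h : FPn R n M) (k : ℕ) :
    FPn R n (Fin k → M) := by
  induction k with
  | zero => exact FPn.of_subsingleton n _
  | succ k ih =>
    let p : (Fin (k + 1) → M) →ₗ[R] M := LinearMap.proj 0
    have hp : Function.Surjective p := fun x => ⟨fun _ => x, rfl⟩
    refine FPn.ext_ker p hp ?_ h
    refine ih.of_equiv ?_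
    refine LinearEquiv.ofBijective (LinearMap.codRestrict _
      (LinearMap.pi (fun i : Fin (k + 1) => Fin.cases 0 (fun j => LinearMap.proj j) i)) ?_)
      ⟨?_, ?_⟩
    · intro x
      rw [LinearMap.mem_ker]
      simp [p]
    · intro x y hxy
      funext j
      have := congrArg (fun z => z.1 j.succ) hxy
      simpa using this
    · rintro ⟨x, hx⟩
      refine ⟨fun j => x j.succ, ?_⟩
      apply Subtype.ext
      funext i
      refine Fin.cases ?_ (fun j => ?_) i
      · have : x 0 = 0 := hx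
        simp [this]
      · simp

end Pool.Agent.K9h89
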