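import Pool.Agent.K9h89.Cone

/-!
# Induced modules
-/

set_option autoImplicit false
set_option linter.unusedSectionVars false

namespace Pool.Agent.K9h89

open MonoidAlgebra (single)

/-- The integral group ring. -/
abbrev ZG (G : Type) [Group G] : Type := MonoidAlgebra ℤ G

/-- The group element `g` as an element of the group ring. -/
noncomputable abbrev gr {G : Type} [Group G] (g : G) : ZG G := MonoidAlgebra.single g 1

/-- The map of group rings induced by a homomorphism. -/
noncomputable abbrev mm {G H : Type} [Group G] [Group H] (f : G →* H) : ZG G →+* ZG H :=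
  MonoidAlgebra.mapDomainRingHom ℤ f

section basics

variable {G H : Type} [Group G] [Group H]

theorem gr_mul (g h : G) : gr (g * h) = gr g * gr h := by
  simp [gr]

theorem gr_one : gr (1 : G) = 1 := rfl

theorem mm_gr (f : G →* H) (g : G) : mm f (gr g) = gr (f g) := by
  simp [mm, gr]

/-- Additive maps compatible with the group elements are semilinear. -/
theorem smul_of_gr {M M' : Type} [AddCommGroup M] [AddCommGroup M'] [Module (ZG G) M]
    [Module (ZG H) M'] (f : G →* H) (F : M →+ M') (h : ∀ g x, F (gr g • x) = gr (f g) • F x)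
    (a : ZG G) (x : M) : F (a • x) = mm f a • F x := by
  induction a using MonoidAlgebra.induction_on with
  | of g => rw [MonoidAlgebra.of_apply, h, ← mm_gr f g]
  | add a b ha hb => rw [add_smul, map_add, ha, hb, map_add, add_smul]
  | smul r a ha =>
    rw [smul_assoc, map_zsmul, ha, map_zsmul, smul_assoc]

theorem smul_of_gr' {M M' : Type} [AddCommGroup M] [AddCommGroup M'] [Module (ZG G) M]
    [Module (ZG G) M'] (F : M →+ M') (h : ∀ (g : G) (x : M), F (gr g • x) = gr g • F x)
    (a : ZG G) (x : M) : F (a • x) = a • F x := by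
  induction a using MonoidAlgebra.induction_on with
  | of g => exact h g x
  | add a b ha hb => rw [add_smul, map_add, ha, hb, add_smul]
  | smul r a ha =>
    rw [smul_assoc, map_zsmul, ha, smul_assoc]

/-- The linear map given by an additive map compatible with the group elements. -/
def linOf {M M' : Type} [AddCommGroup M] [AddCommGroup M'] [Module (ZG G) M]
    [Module (ZG G) M'] (F : M →+ M') (h : ∀ (g : G) (x : M), F (gr g • x) = gr g • F x) :
    M →ₗ[ZG G] M' where
  toFun := F
  map_add' := F.map_add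
  map_smul' := smul_of_gr' F h

end basics

/-- An exact sequence `1 → N → G → H → 1`. -/
structure Side (N G H : Type) [Group N] [Group G] [Group H] where
  ι : N →* G
  π : G →* H
  ι_inj : Function.Injective ι
  π_surj : Function.Surjective π
  exact : ∀ g, π g = 1 ↔ ∃ n, ι n = g

section

variable {N G H : Type} [Group N] [Group G] [Group H] (D : Side N G H)

/-- A set-theoretic section. -/
noncomputable def Side.σ (h : H) : G := Function.surjInv D.π_surj h

theorem Side.π_σ (h : H) : D.π (D.σ h) = h := Function.surjInv_eq D.π_surj h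

theorem Side.π_ι (n : N) : D.π (D.ι n) = 1 := (D.exact _).2 ⟨n, rfl⟩

theorem Side.decomp (g : G) : ∃ n : N, g = D.σ (D.π g) * D.ι n := by
  have : D.π ((D.σ (D.π g))⁻¹ * g) = 1 := by
    rw [map_mul, map_inv, D.π_σ, inv_mul_cancel]
  obtain ⟨n, hn⟩ := (D.exact _).1 this
  exact ⟨n, by rw [hn]; group⟩

theorem Side.decomp' (g g' : G) (h : D.π g = D.π g') : ∃ n : N, g = g' * D.ι n := by
  have : D.π (g'⁻¹ * g) = 1 := by
    rw [map_mul, map_inv, h, inv_mul_cancel]
  obtain ⟨n, hn⟩ := (D.exact _).1 this
  exact ⟨n, by rw [hn]; group⟩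

variable {X E : Type} [AddCommGroup X] [Module (ZG N) X] [AddCommGroup E] [Module (ZG G) E]
  (j : X →ₛₗ[mm D.ι] E)

theorem Side.j_gr (n : N) (x : X) : j (gr n • x) = gr (D.ι n) • j x := by
  rw [map_smulₛₗ, mm_gr]

/-- The additive map `⊕_{h ∈ H} X → E`, `(x_h) ↦ ∑ σ(h) j(x_h)`. -/
noncomputable def Side.toInd : (H →₀ X) →+ E :=
  Finsupp.liftAddHom (fun h =>
    ((DistribSMul.toAddMonoidHom E (gr (D.σ h))).comp j.toAddMonoidHom))

theorem Side.toInd_single (h : H) (x : X) :
    D.toInd j (Finsupp.single h x) = gr (D.σ h) • j x := by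
  simp [Side.toInd]

/-- `E` is induced from `X` along `j`. -/
def Side.IsInd : Prop := Function.Bijective (D.toInd j)

variable {j}

/-- Two additive maps on an induced module are equal if they are equal on the elements
`g • j x`. -/
theorem Side.IsInd.addHom_ext (hj : D.IsInd j) {M : Type} [AddCommGroup M] {f f' : E →+ M}
    (h : ∀ (g : G) (x : X), f (gr g • j x) = f' (gr g • j x)) : f = f' := by
  have h1 : f.comp (D.toInd j) = f'.comp (D.toInd j) := by
    apply Finsupp.addHom_ext
    intro y x
    rw [AddMonoidHom.comp_apply, AddMonoidHom.comp_apply, D.toInd_single, h]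
  ext e
  obtain ⟨y, rfl⟩ := hj.2 e
  exact DFunLike.congr_fun h1 y

theorem Side.IsInd.span_eq_top (hj : D.IsInd j) (V : Submodule (ZG G) E)
    (h : ∀ x, j x ∈ V) : V = ⊤ := by
  rw [eq_top_iff]
  rintro e -
  obtain ⟨y, rfl⟩ := hj.2 e
  induction y using Finsupp.induction_linear with
  | zero => simp
  | add a b ha hb => rw [map_add]; exact V.add_mem ha hb
  | single y x => rw [D.toInd_single]; exact V.smul_mem _ (h x)

/-- The additive map out of an induced module given by a compatible family of additive maps. -/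
theorem Side.IsInd.exists_addHom (hj : D.IsInd j) {M : Type} [AddCommGroup M]
    (φ : G → X →+ M) (hφ : ∀ g n x, φ (g * D.ι n) x = φ g (gr n • x)) :
    ∃ F : E →+ M, ∀ g x, F (gr g • j x) = φ g x := by
  let e : (H →₀ X) ≃+ E := AddEquiv.ofBijective (D.toInd j) hj
  let F0 : (H →₀ X) →+ M := Finsupp.liftAddHom (fun h => φ (D.σ h))
  refine ⟨F0.comp e.symm.toAddMonoidHom, ?_⟩
  intro g x
  obtain ⟨n, hn⟩ := D.decomp g
  have h1 : gr g • j x = e (Finsupp.single (D.π g) (gr n • x)) := by
    change _ = D.toInd j _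
    rw [D.toInd_single, D.j_gr, ← mul_smul, ← gr_mul, ← hn]
  change F0 (e.symm _) = _
  rw [h1, AddEquiv.symm_apply_apply]
  simp only [F0, Finsupp.liftAddHom_apply_single]
  rw [← hφ, ← hn]

/-- The universal property of an induced module. -/
theorem Side.IsInd.exists_lin (hj : D.IsInd j) {M : Type} [AddCommGroup M] [Module (ZG G) M]
    (φ : X →+ M) (hφ : ∀ n x, φ (gr n • x) = gr (D.ι n) • φ x) :
    ∃ F : E →ₗ[ZG G] M, ∀ x, F (j x) = φ x := by
  obtain ⟨F, hF⟩ := hj.exists_addHom D
    (fun g => (DistribSMul.toAddMonoidHom M (gr g)).comp φ) (by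
      intro g n x
      change gr (g * D.ι n) • φ x = gr g • φ (gr n • x)
      rw [hφ, gr_mul, mul_smul])
  have hF' : ∀ (g : G) (x : X), F (gr g • j x) = gr g • φ x := hF
  refine ⟨linOf F ?_, ?_⟩
  · intro g
    have h1 : F.comp (DistribSMul.toAddMonoidHom E (gr g)) =
        (DistribSMul.toAddMonoidHom M (gr g)).comp F := by
      apply hj.addHom_ext D
      intro g' x
      change F (gr g • gr g' • j x) = gr g • F (gr g' • j x)
      rw [← mul_smul, ← gr_mul, hF', hF', gr_mul, mul_smul]
    intro e
    exact DFunLike.congr_fun h1 e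
  · intro x
    change F (j x) = φ x
    have := hF' 1 x
    rwa [gr_one, one_smul, one_smul] at this

/-- Uniqueness in the universal property. -/
theorem Side.IsInd.lin_ext (hj : D.IsInd j) {M : Type} [AddCommGroup M] [Module (ZG G) M]
    {f f' : E →ₗ[ZG G] M} (h : ∀ x, f (j x) = f' (j x)) : f = f' := by
  have h1 : f.toAddMonoidHom = f'.toAddMonoidHom := by
    apply hj.addHom_ext D
    intro g x
    change f _ = f' _
    rw [map_smul, map_smul, h]
  ext e
  exact DFunLike.congr_fun h1 e

/-! ### Maps between induced modules -/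

variable {X' E' : Type} [AddCommGroup X'] [Module (ZG N) X'] [AddCommGroup E']
  [Module (ZG G) E'] {j' : X' →ₛₗ[mm D.ι] E'}

theorem Side.toInd_map (p : X →ₗ[ZG N] X') (P : E →ₗ[ZG G] E') (hP : ∀ x, P (j x) = j' (p x))
    (f : H →₀ X) : P (D.toInd j f) = D.toInd j' (f.mapRange p p.map_zero) := by
  induction f using Finsupp.induction_linear with
  | zero => simp
  | add a b ha hb =>
    rw [map_add, map_add, ha, hb, Finsupp.mapRange_add p.map_add, map_add]
  | single h x =>
    rw [D.toInd_single, map_smul, hP, Finsupp.mapRange_single, D.toInd_single]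

theorem Side.IsInd.surj (hj' : D.IsInd j') (p : X →ₗ[ZG N] X')
    (hp : Function.Surjective p) (P : E →ₗ[ZG G] E') (hP : ∀ x, P (j x) = j' (p x)) :
    Function.Surjective P := by
  intro e
  obtain ⟨f, rfl⟩ := hj'.2 e
  obtain ⟨f', rfl⟩ := Finsupp.mapRange_surjective p p.map_zero hp f
  exact ⟨D.toInd j f', D.toInd_map p P hP f'⟩

/-- The restriction of `j` to the kernels. -/
noncomputable def Side.jk (j : X →ₛₗ[mm D.ι] E) (j' : X' →ₛₗ[mm D.ι] E') (p : X →ₗ[ZG N] X')
    (P : E →ₗ[ZG G] E') (hP : ∀ x, P (j x) = j' (p x)) :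
    LinearMap.ker p →ₛₗ[mm D.ι] LinearMap.ker P :=
  LinearMap.codRestrict _ (j ∘ₛₗ (LinearMap.ker p).subtype) (by
    rintro ⟨x, hx⟩
    rw [LinearMap.mem_ker] at hx ⊢
    simp [hP, hx])

theorem Side.jk_coe (p : X →ₗ[ZG N] X') (P : E →ₗ[ZG G] E') (hP : ∀ x, P (j x) = j' (p x))
    (x : LinearMap.ker p) : ((D.jk j j' p P hP x : LinearMap.ker P) : E) = j x := rfl

theorem Side.toInd_jk (p : X →ₗ[ZG N] X') (P : E →ₗ[ZG G] E') (hP : ∀ x, P (j x) = j' (p x))
    (f : H →₀ LinearMap.ker p) :
    ((D.toInd (D.jk j j' p P hP) f : LinearMap.ker P) : E) =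
      D.toInd j (f.mapRange (LinearMap.ker p).subtype (map_zero _)) := by
  induction f using Finsupp.induction_linear with
  | zero => simp
  | add a b ha hb =>
    rw [map_add, Submodule.coe_add, ha, hb, Finsupp.mapRange_add (map_add _), map_add]
  | single h x =>
    rw [D.toInd_single, Submodule.coe_smul, D.jk_coe, Finsupp.mapRange_single, D.toInd_single]
    rfl

theorem Side.IsInd.ker (hj : D.IsInd j) (hj' : D.IsInd j') (p : X →ₗ[ZG N] X')
    (P : E →ₗ[ZG G] E') (hP : ∀ x, P (j x) = j' (p x)) : D.IsInd (D.jk j j' p P hP) := by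
  constructor
  · intro f f' hff
    have h1 := congrArg Subtype.val hff
    rw [D.toInd_jk, D.toInd_jk] at h1
    exact Finsupp.mapRange_injective _ (map_zero _) (LinearMap.ker p).injective_subtype
      (hj.1 h1)
  · rintro ⟨e, he⟩
    obtain ⟨f, rfl⟩ := hj.2 e
    rw [LinearMap.mem_ker, D.toInd_map p P hP] at he
    have h1 : f.mapRange p p.map_zero = 0 := by
      apply hj'.1
      rw [he, map_zero]
    have h2 : ∀ h, f h ∈ LinearMap.ker p := by
      intro h
      have := DFunLike.congr_fun h1 h
      rwa [Finsupp.mapRange_apply] at this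
    refine ⟨Finsupp.onFinset f.support (fun h => ⟨f h, h2 h⟩) ?_, ?_⟩
    · intro h hh
      rw [Finsupp.mem_support_iff]
      intro h0
      exact hh (Subtype.ext h0)
    · apply Subtype.ext
      rw [D.toInd_jk]
      congr 1
      apply Finsupp.ext
      intro h
      rw [Finsupp.mapRange_apply]
      rfl

/-! ### Free modules -/

/-- The map of free modules. -/
noncomputable def Side.jF (k : ℕ) : (Fin k → ZG N) →ₛₗ[mm D.ι] (Fin k → ZG G) where
  toFun x i := mm D.ι (x i)
  map_add' x y := by funext i; exact map_add (mm D.ι) _ _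
  map_smul' a x := by
    funext i
    simp only [Pi.smul_apply, smul_eq_mul, map_mul]

theorem Side.jF_apply (k : ℕ) (x : Fin k → ZG N) (i : Fin k) : D.jF k x i = mm D.ι (x i) := rfl

theorem Side.toInd_jF_coeff (k : ℕ) (f : H →₀ (Fin k → ZG N)) (i : Fin k) (h : H) (n : N) :
    ((D.toInd (D.jF k) f) i).coeff (D.σ h * D.ι n) = (f h i).coeff n := by
  classical
  induction f using Finsupp.induction_linear with
  | zero => simp
  | add a b ha hb =>
    rw [map_add, Pi.add_apply, MonoidAlgebra.coeff_add, Finsupp.add_apply, ha, hb,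
      Finsupp.add_apply, Pi.add_apply, MonoidAlgebra.coeff_add, Finsupp.add_apply]
  | single h' x =>
    rw [D.toInd_single, Pi.smul_apply, D.jF_apply, smul_eq_mul,
      MonoidAlgebra.coeff_single_mul_apply, one_mul]
    by_cases hh : h' = h
    · subst hh
      rw [Finsupp.single_eq_same, ← mul_assoc, inv_mul_cancel, one_mul]
      exact Finsupp.mapDomain_apply D.ι_inj _ _
    · rw [Finsupp.single_eq_of_ne (fun h' => hh h'.symm)]
      have h1 : (D.σ h')⁻¹ * (D.σ h * D.ι n) ∉ Set.range D.ι := by
        rintro ⟨m, hm⟩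
        have := congrArg D.π hm
        rw [D.π_ι, map_mul, map_mul, map_inv, D.π_σ, D.π_σ, D.π_ι, mul_one] at this
        exact hh (inv_mul_eq_one.1 this.symm)
      rw [Pi.zero_apply, MonoidAlgebra.coeff_zero, Finsupp.zero_apply]
      exact Finsupp.mapDomain_of_notMem_range _ _ h1

theorem Side.isInd_jF (k : ℕ) : D.IsInd (D.jF k) := by
  classical
  constructor
  · intro f f' hff
    apply Finsupp.ext
    intro h
    funext i
    apply MonoidAlgebra.ext
    apply Finsupp.ext
    intro n
    rw [← D.toInd_jF_coeff, ← D.toInd_jF_coeff, hff]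
  · have key : ∀ (i : Fin k) (a : ZG G), Pi.single i a ∈ (D.toInd (D.jF k)).range := by
      intro i a
      induction a using MonoidAlgebra.induction_linear with
      | zero => rw [Pi.single_zero]; exact AddSubgroup.zero_mem _
      | add a b ha hb => rw [Pi.single_add]; exact AddSubgroup.add_mem _ ha hb
      | single g r =>
        obtain ⟨n, hn⟩ := D.decomp g
        refine ⟨Finsupp.single (D.π g) (Pi.single i (single n r)), ?_⟩
        rw [D.toInd_single]
        funext i'
        rw [Pi.smul_apply, D.jF_apply, smul_eq_mul]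
        by_cases hi : i' = i
        · subst hi
          rw [Pi.single_eq_same, Pi.single_eq_same]
          simp only [mm, gr, MonoidAlgebra.mapDomainRingHom_apply, MonoidAlgebra.mapDomain_single,
            MonoidAlgebra.single_mul_single, one_mul, ← hn]
        · rw [Pi.single_eq_of_ne hi, Pi.single_eq_of_ne hi, map_zero, mul_zero]
    intro e
    have h1 : e = ∑ i, Pi.single i (e i) := (Finset.univ_sum_single e).symm
    have h2 : e ∈ (D.toInd (D.jF k)).range := by
      rw [h1]
      exact AddSubgroup.sum_mem _ fun i _ => key i _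
    exact h2

theorem Side.exists_cov (k : ℕ) (p : (Fin k → ZG N) →ₗ[ZG N] X) (j : X →ₛₗ[mm D.ι] E) :
    ∃ P : (Fin k → ZG G) →ₗ[ZG G] E, ∀ x, P (D.jF k x) = j (p x) := by
  refine (D.isInd_jF k).exists_lin D (j.toAddMonoidHom.comp p.toAddMonoidHom) ?_
  intro n x
  change j (p (gr n • x)) = gr (D.ι n) • j (p x)
  rw [map_smul, D.j_gr]

/-- Finiteness conditions pass to induced modules. -/
theorem FPn.ind {m : ℕ} {X : Type} [AddCommGroup X] [Module (ZG N) X] (hX : FPn (ZG N) m X)
    {E : Type} [AddCommGroup E] [Module (ZG G) E] (j : X →ₛₗ[mm D.ι] E) (hj : D.IsInd j) :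
    FPn (ZG G) m E := by
  induction m generalizing X E with
  | zero => trivial
  | succ m ih =>
    obtain ⟨k, p, hp, hk⟩ := hX
    obtain ⟨P, hP⟩ := D.exists_cov k p j
    exact ⟨k, P, hj.surj D p hp P hP, ih hk _ ((D.isInd_jF k).ker D hj p P hP)⟩

end

end Pool.Agent.K9h89
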