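import Pool.Agent.K9h89.Transfer

/-!
# The trivial module
-/

set_option autoImplicit false
set_option linter.unusedSectionVars false

namespace Pool.Agent.K9h89

open MonoidAlgebra (single)

/-- The augmentation. -/
noncomputable def aug (G : Type) [Group G] : ZG G →+* ℤ :=
  (MonoidAlgebra.lift ℤ ℤ G (1 : G →* ℤ)).toRingHom

theorem aug_gr {G : Type} [Group G] (g : G) : aug G (gr g) = 1 := by
  simp [aug, gr]

/-- The trivial module `ℤ`. -/
abbrev Tr (G : Type) [Group G] : Type := Res (aug G) ℤ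

/-- The augmentation as a linear map. -/
noncomputable def augL (G : Type) [Group G] : ZG G →ₗ[ZG G] Tr G where
  toFun x := aug G x
  map_add' x y := map_add (aug G) x y
  map_smul' a x := map_mul (aug G) a x

theorem augL_apply {G : Type} [Group G] (x : ZG G) : augL G x = aug G x := rfl

theorem augL_surj (G : Type) [Group G] : Function.Surjective (augL G) := by
  intro z
  refine ⟨(show ℤ from z) • (1 : ZG G), ?_⟩
  have h : aug G ((show ℤ from z) • (1 : ZG G)) = (show ℤ from z) := by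
    rw [map_zsmul, map_one, smul_eq_mul, mul_one]
  exact h

theorem aug_eq {G : Type} [Group G] (ε : ZG G →+* ℤ)
    (h : ∀ g : G, ε (MonoidAlgebra.of ℤ G g) = 1) : ε = aug G := by
  apply MonoidAlgebra.ringHom_ext
  · intro r
    have h1 : (single (1 : G) r : ZG G) = r • (1 : ZG G) := by
      rw [MonoidAlgebra.one_def, MonoidAlgebra.smul_single]; simp
    rw [h1, map_zsmul, map_zsmul, map_one, map_one]
  · intro g
    have h1 := h g
    rw [MonoidAlgebra.of_apply] at h1
    rw [h1]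
    exact (aug_gr g).symm

/-! ### The augmentation ideal -/

section augideal

variable {H S : Type} [Group H] (g : S → H)

/-- Right multiplication by `g_s`. -/
noncomputable def rm (s : S) : ZG H →ₗ[ZG H] ZG H :=
  LinearMap.toSpanSingleton (ZG H) (ZG H) (gr (g s))

theorem rm_apply (s : S) (x : ZG H) : rm g s x = x * gr (g s) := by
  simp [rm]

variable [Fintype S] [DecidableEq S]

theorem range_mu (hg : Subgroup.closure (Set.range g) = ⊤) :
    LinearMap.range (mu (rm g)) = LinearMap.ker (augL H) := by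
  apply le_antisymm
  · rintro _ ⟨b, rfl⟩
    rw [LinearMap.mem_ker, mu_apply, map_sum]
    refine Finset.sum_eq_zero fun s _ => ?_
    have h : aug H (rm g s (b s) - b s) = 0 := by
      rw [map_sub, rm_apply, map_mul, aug_gr, mul_one, sub_self]
    exact h
  · -- the subgroup of the elements `h` with `h - 1` in the range
    set V := LinearMap.range (mu (rm g)) with hV
    let B : Subgroup H :=
      { carrier := {h | gr h - 1 ∈ V}
        one_mem' := by
          change gr (1 : H) - 1 ∈ V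
          rw [gr_one, sub_self]; exact V.zero_mem
        mul_mem' := by
          intro a b ha hb
          change gr (a * b) - 1 ∈ V
          have : gr (a * b) - 1 = gr a • (gr b - 1) + (gr a - 1) := by
            rw [gr_mul, smul_sub, smul_eq_mul, smul_eq_mul, mul_one]; abel
          rw [this]
          exact V.add_mem (V.smul_mem _ hb) ha
        inv_mem' := by
          intro a ha
          change gr a⁻¹ - 1 ∈ V
          have : gr a⁻¹ - 1 = (-gr a⁻¹) • (gr a - 1) := by
            rw [smul_eq_mul, mul_sub, neg_mul, ← gr_mul, inv_mul_cancel, gr_one, mul_one]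
            abel
          rw [this]
          exact V.smul_mem _ ha }
    have hB : ∀ h, h ∈ B ↔ gr h - 1 ∈ V := fun h => Iff.rfl
    have hBtop : B = ⊤ := by
      rw [eq_top_iff, ← hg, Subgroup.closure_le]
      rintro _ ⟨s, rfl⟩
      rw [SetLike.mem_coe, hB]
      refine ⟨Pi.single s 1, ?_⟩
      rw [mu_apply, Finset.sum_eq_single s]
      · rw [Pi.single_eq_same, rm_apply, one_mul]
      · intro s' _ hs'
        rw [Pi.single_eq_of_ne hs', map_zero, sub_zero]
      · intro hs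
        exact absurd (Finset.mem_univ s) hs
    have key : ∀ x : ZG H, x - (aug H x) • (1 : ZG H) ∈ V := by
      intro x
      induction x using MonoidAlgebra.induction_on with
      | of h =>
        have h1 : h ∈ B := by rw [hBtop]; trivial
        rw [MonoidAlgebra.of_apply]
        change gr h - _ ∈ V
        rw [aug_gr, one_smul]
        exact (hB h).1 h1
      | add a b ha hb =>
        have : a + b - (aug H (a + b)) • (1 : ZG H) =
            (a - (aug H a) • (1 : ZG H)) + (b - (aug H b) • (1 : ZG H)) := by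
          rw [map_add, add_smul]; abel
        rw [this]
        exact V.add_mem ha hb
      | smul r a ha =>
        have : r • a - (aug H (r • a)) • (1 : ZG H) = r • (a - (aug H a) • (1 : ZG H)) := by
          rw [map_zsmul, smul_sub, smul_assoc]
        rw [this]
        exact V.toAddSubgroup.zsmul_mem ha r
    intro x hx
    have h1 := key x
    have h2 : aug H x = 0 := hx
    rwa [h2, zero_smul, sub_zero] at h1

/-- The second syzygy of the trivial module. -/
theorem fpn_ker_mu (hg : Subgroup.closure (Set.range g) = ⊤) (m : ℕ)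
    (h : FPn (ZG H) (m + 2) (Tr H)) : FPn (ZG H) m (LinearMap.ker (mu (rm g))) := by
  have h1 : FPn (ZG H) (m + 1) (LinearMap.ker (augL H)) := by
    refine FPn.ker (augL H) (augL_surj H) ?_ h
    exact FF.fpn ((FF.of_equiv (LinearEquiv.funUnique (Fin 1) (ZG H) (ZG H))) (FF.fin 1)) _
  have h2 : FPn (ZG H) (m + 1) (LinearMap.range (mu (rm g))) := by
    rw [range_mu g hg]; exact h1
  have h3 := FPn.ker (LinearMap.rangeRestrict (mu (rm g)))
    (LinearMap.surjective_rangeRestrict _) ((FF.of_fintype (R := ZG H) S).fpn m) h2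
  rwa [LinearMap.ker_rangeRestrict] at h3

end augideal

/-! ### The initial package -/

section init

variable {N G H S : Type} [Group N] [Group G] [Group H] (D : Side N G H)

/-- The induced module of the trivial module. -/
abbrev Side.E0 : Type := Res (mm D.π) (ZG H)

/-- `ℤ → ℤ[H]`. -/
noncomputable def Side.j0 : Tr N →ₛₗ[mm D.ι] D.E0 where
  toFun z := (show ℤ from z) • (1 : ZG H)
  map_add' x y := add_smul (show ℤ from x) (show ℤ from y) (1 : ZG H)
  map_smul' a z := by
    have key : ∀ a : ZG N, mm D.π (mm D.ι a) = (aug N a) • (1 : ZG H) := by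
      intro a
      induction a using MonoidAlgebra.induction_on with
      | of n =>
        rw [MonoidAlgebra.of_apply]
        change mm D.π (mm D.ι (gr n)) = (aug N (gr n)) • (1 : ZG H)
        rw [mm_gr, mm_gr, D.π_ι, aug_gr, gr_one, one_smul]
      | add a b ha hb => rw [map_add, map_add, ha, hb, map_add, add_smul]
      | smul r a ha => rw [map_zsmul, map_zsmul, ha, map_zsmul, smul_assoc]
    change (aug N a * (show ℤ from z)) • (1 : ZG H) =
      mm D.π (mm D.ι a) * ((show ℤ from z) • (1 : ZG H))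
    rw [key, mul_smul, smul_mul_assoc, one_mul]

theorem Side.j0_apply (z : Tr N) : D.j0 z = (show ℤ from z) • (1 : ZG H) := rfl

theorem Side.toInd_j0 (f : H →₀ Tr N) : D.toInd D.j0 f =
    (MonoidAlgebra.ofCoeff (show H →₀ ℤ from f) : ZG H) := by
  induction f using Finsupp.induction_linear with
  | zero => rw [map_zero]; rfl
  | add a b ha hb => rw [map_add, ha, hb]; rfl
  | single h x =>
    rw [D.toInd_single]
    have key : ∀ z : ℤ, mm D.π (gr (D.σ h)) * (z • (1 : ZG H)) = single h z := by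
      intro z
      rw [mm_gr, D.π_σ, mul_smul_comm, mul_one, MonoidAlgebra.smul_single, smul_eq_mul, mul_one]
    exact key x

theorem Side.isInd_j0 : D.IsInd D.j0 := by
  constructor
  · intro f f' h
    rw [D.toInd_j0, D.toInd_j0] at h
    exact MonoidAlgebra.ofCoeff_injective h
  · intro e
    exact ⟨(show ZG H from e).coeff, D.toInd_j0 _⟩

/-- The trivial action. -/
noncomputable def θ0 (S N : Type) [Group N] : S → Tr N →+ Tr N := fun _ => AddMonoidHom.id _

theorem gr_smul_tr {N : Type} [Group N] (n : N) (x : Tr N) : gr n • x = x := by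
  change aug N (gr n) * (show ℤ from x) = x
  rw [aug_gr, one_mul]

theorem semi_θ0 (c : S → N →* N) : Semi c (θ0 S N) := by
  intro s n x
  rw [gr_smul_tr, gr_smul_tr]

theorem tw_θ0 (l : List S) (x : Tr N) : tw (θ0 S N) l x = x := by
  induction l with
  | nil => rfl
  | cons s l ih => exact ih

theorem relProp_θ0 {ω : Type} (w : ω → List S) (ν : ω → N) : RelProp w ν (θ0 S N) := by
  intro o
  refine ⟨0, 0, 0, fun x => ?_⟩
  rw [tw_θ0, gr_smul_tr]
  simp

variable (t : S → G)

/-- The maps `ρ_s` on `ℤ[H]`. -/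
noncomputable def Side.ρ0 (s : S) : D.E0 →ₗ[ZG G] D.E0 :=
  Res.map (mm D.π) (rm (fun s => (D.π (t s))⁻¹) s)

theorem Side.comp_ρ0 : D.Comp t D.j0 (θ0 S N) (D.ρ0 t) := by
  intro s x
  change rm (fun s => (D.π (t s))⁻¹) s ((show ℤ from x) • (1 : ZG H)) =
    mm D.π (gr (t s)⁻¹) * ((show ℤ from x) • (1 : ZG H))
  rw [rm_apply, mm_gr, map_inv, smul_mul_assoc, one_mul, mul_smul_comm, mul_one]

variable [Fintype S] [DecidableEq S]

theorem Side.mu0_eq (e : S → ZG H) : mu (D.ρ0 t) (show S → D.E0 from e) =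
    (show D.E0 from (show ZG H from mu (rm (fun s => (D.π (t s))⁻¹)) e)) := by
  have h1 := mu_apply (rm (fun s => (D.π (t s))⁻¹)) e
  have h2 := mu_apply (D.ρ0 t) (show S → D.E0 from e)
  exact h2.trans h1.symm

theorem Side.mem_ker0 (e : S → ZG H) : (show S → D.E0 from e) ∈ LinearMap.ker (mu (D.ρ0 t)) ↔
    e ∈ LinearMap.ker (mu (rm (fun s => (D.π (t s))⁻¹))) := by
  rw [LinearMap.mem_ker, D.mu0_eq]
  exact Iff.rfl

/-- The kernel of `μ` on `ℤ[H]` as a module over `ℤ[G]`. -/
noncomputable def Side.kerEquiv0 :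
    Res (mm D.π) (LinearMap.ker (mu (rm (fun s => (D.π (t s))⁻¹)))) ≃ₗ[ZG G]
      LinearMap.ker (mu (D.ρ0 t)) where
  toFun x := ⟨_, (D.mem_ker0 t _).2
      (show LinearMap.ker (mu (rm (fun s => (D.π (t s))⁻¹))) from x).2⟩
  invFun x := (⟨_, (D.mem_ker0 t x.1).1 x.2⟩ :
      LinearMap.ker (mu (rm (fun s => (D.π (t s))⁻¹))))
  map_add' _ _ := rfl
  map_smul' _ _ := rfl
  left_inv _ := rfl
  right_inv _ := rfl

theorem Side.fpn_ker0 (ht : Subgroup.closure (Set.range fun s => D.π (t s)) = ⊤) (m : ℕ)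
    (hH : FPn (ZG H) (m + 2) (Tr H)) (hN : FPn (ZG N) m (Tr N)) :
    FPn (ZG G) m (LinearMap.ker (mu (D.ρ0 t))) := by
  refine FPn.of_equiv (D.kerEquiv0 t) ?_
  refine FPn.res _ (hN.ind D D.j0 D.isInd_j0) (fpn_ker_mu _ ?_ m hH)
  rw [eq_top_iff, ← ht, Subgroup.closure_le]
  rintro _ ⟨s, rfl⟩
  have : (D.π (t s))⁻¹ ∈ Subgroup.closure (Set.range fun s => (D.π (t s))⁻¹) :=
    Subgroup.subset_closure ⟨s, rfl⟩
  have h2 := Subgroup.inv_mem _ this
  rwa [inv_inv] at h2

/-- `ℤ[G]^1 → ℤ`. -/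
noncomputable def aug1 (G : Type) [Group G] : (Fin 1 → ZG G) →ₗ[ZG G] Tr G :=
  augL G ∘ₗ LinearMap.proj 0

theorem aug1_surj (G : Type) [Group G] : Function.Surjective (aug1 G) := by
  intro z
  obtain ⟨x, rfl⟩ := augL_surj G z
  exact ⟨fun _ => x, rfl⟩

variable {P0 : (Fin 1 → ZG G) →ₗ[ZG G] D.E0} (hP0 : ∀ x, P0 (D.jF 1 x) = D.j0 (aug1 N x))

include hP0 in
theorem Side.P0_apply (x : Fin 1 → ZG G) : P0 x = mm D.π (x 0) := by
  let F : (Fin 1 → ZG G) →ₗ[ZG G] D.E0 :=
    { toFun := fun x => mm D.π (x 0)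
      map_add' := fun x y => map_add (mm D.π) _ _
      map_smul' := fun a x => map_mul (mm D.π) _ _ }
  have h1 : P0 = F := by
    apply (D.isInd_jF 1).lin_ext D
    intro y
    rw [hP0]
    have h2 : D.j0 (aug1 N y) = D.j0 ((y 0) • (show Tr N from (1 : ℤ))) := by
      congr 1
      change aug N (y 0) = aug N (y 0) * 1
      rw [mul_one]
    rw [h2, map_smulₛₗ]
    change mm D.π (mm D.ι (y 0)) * ((1 : ℤ) • (1 : ZG H)) = mm D.π (mm D.ι (y 0))
    rw [one_smul, mul_one]
  rw [h1]; rfl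

theorem aug_mm {G H : Type} [Group G] [Group H] (f : G →* H) (x : ZG G) :
    aug H (mm f x) = aug G x := by
  have : (aug H).comp (mm f) = aug G := by
    apply aug_eq
    intro g
    rw [MonoidAlgebra.of_apply]
    change aug H (mm f (gr g)) = 1
    rw [mm_gr, aug_gr]
  rw [← this]; rfl

theorem Side.closure_inv (ht : Subgroup.closure (Set.range fun s => D.π (t s)) = ⊤) :
    Subgroup.closure (Set.range fun s => (D.π (t s))⁻¹) = ⊤ := by
  rw [eq_top_iff, ← ht, Subgroup.closure_le]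
  rintro _ ⟨s, rfl⟩
  have : (D.π (t s))⁻¹ ∈ Subgroup.closure (Set.range fun s => (D.π (t s))⁻¹) :=
    Subgroup.subset_closure ⟨s, rfl⟩
  have h2 := Subgroup.inv_mem _ this
  rwa [inv_inv] at h2

include hP0 in
theorem Side.mem_cone0 (e : S → ZG H) (x : Fin 1 → ZG G) :
    ((show S → D.E0 from e), x) ∈ Acone (D.ρ0 t) P0 ↔
      mu (rm (fun s => (D.π (t s))⁻¹)) e + mm D.π (x 0) = 0 := by
  rw [mem_Acone, D.mu0_eq, D.P0_apply hP0]
  exact Iff.rfl

/-- The projection of the cone to the augmentation ideal. -/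
noncomputable def Side.pr (hP0 : ∀ x, P0 (D.jF 1 x) = D.j0 (aug1 N x))
    (ht : Subgroup.closure (Set.range fun s => D.π (t s)) = ⊤) :
    Acone (D.ρ0 t) P0 →ₗ[ZG G] LinearMap.ker (aug1 G) :=
  LinearMap.codRestrict _ (LinearMap.snd _ _ _ ∘ₗ (Acone (D.ρ0 t) P0).subtype) (by
    rintro ⟨⟨e, x⟩, h⟩
    rw [LinearMap.mem_ker]
    have h1 := (D.mem_cone0 t hP0 (show S → ZG H from e) x).1 h
    have h2 : mu (rm (fun s => (D.π (t s))⁻¹)) (show S → ZG H from e) ∈
        LinearMap.ker (augL H) := by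
      rw [← range_mu _ (D.closure_inv t ht)]
      exact LinearMap.mem_range_self _ _
    have h3 : aug H (mu (rm (fun s => (D.π (t s))⁻¹)) (show S → ZG H from e)) = 0 := h2
    have h4 := congrArg (aug H) h1
    rw [map_add, h3, zero_add, aug_mm, map_zero] at h4
    exact h4)

theorem Side.pr_surj (hP0 : ∀ x, P0 (D.jF 1 x) = D.j0 (aug1 N x))
    (ht : Subgroup.closure (Set.range fun s => D.π (t s)) = ⊤) :
    Function.Surjective (D.pr t hP0 ht) := by
  rintro ⟨x, hx⟩
  have h1 : aug G (x 0) = 0 := hx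
  have h2 : -mm D.π (x 0) ∈ LinearMap.range (mu (rm (fun s => (D.π (t s))⁻¹))) := by
    rw [range_mu _ (D.closure_inv t ht)]
    have : aug H (-mm D.π (x 0)) = 0 := by rw [map_neg, aug_mm, h1, neg_zero]
    exact this
  obtain ⟨e, he⟩ := h2
  refine ⟨⟨((show S → D.E0 from e), x), ?_⟩, rfl⟩
  rw [D.mem_cone0 t hP0, he, neg_add_cancel]

/-- The kernel of the projection. -/
noncomputable def Side.kerPr (hP0 : ∀ x, P0 (D.jF 1 x) = D.j0 (aug1 N x))
    (ht : Subgroup.closure (Set.range fun s => D.π (t s)) = ⊤) :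
    LinearMap.ker (mu (D.ρ0 t)) ≃ₗ[ZG G] LinearMap.ker (D.pr t hP0 ht) := by
  refine LinearEquiv.ofBijective (LinearMap.codRestrict _ (LinearMap.codRestrict _
    (LinearMap.inl (ZG G) (S → D.E0) (Fin 1 → ZG G) ∘ₗ (LinearMap.ker (mu (D.ρ0 t))).subtype) ?_)
      ?_) ⟨?_, ?_⟩
  · rintro ⟨x, hx⟩
    rw [LinearMap.mem_ker] at hx
    change (x, 0) ∈ Acone (D.ρ0 t) P0
    rw [mem_Acone, hx, map_zero, add_zero]
  · rintro ⟨x, hx⟩
    rw [LinearMap.mem_ker]
    apply Subtype.ext
    rfl
  · rintro ⟨x, hx⟩ ⟨y, hy⟩ h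
    have h1 := congrArg (fun z => z.1.1.1) h
    exact Subtype.ext h1
  · rintro ⟨⟨⟨x, y⟩, hxy⟩, hq'⟩
    have hy : y = 0 := congrArg Subtype.val (LinearMap.mem_ker.1 hq')
    subst hy
    rw [mem_Acone, map_zero, add_zero] at hxy
    exact ⟨⟨x, hxy⟩, rfl⟩

/-- The finiteness condition on the cone from those of the groups. -/
theorem Side.fpn_cone (hP0 : ∀ x, P0 (D.jF 1 x) = D.j0 (aug1 N x))
    (ht : Subgroup.closure (Set.range fun s => D.π (t s)) = ⊤) (m : ℕ)
    (hN : FPn (ZG N) m (Tr N)) (hG : FPn (ZG G) (m + 1) (Tr G)) (hH : FPn (ZG H) (m + 2) (Tr H)) :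
    FPn (ZG G) m (Acone (D.ρ0 t) P0) := by
  refine FPn.ext_ker (D.pr t hP0 ht) (D.pr_surj t hP0 ht) ?_ ?_
  · exact (D.fpn_ker0 t ht m hH hN).of_equiv (D.kerPr t hP0 ht)
  · exact FPn.ker (aug1 G) (aug1_surj G) (FPn.free _ _) hG

/-- The finiteness condition on the group from that of the cone. -/
theorem Side.fpn_of_cone (hP0 : ∀ x, P0 (D.jF 1 x) = D.j0 (aug1 N x))
    (ht : Subgroup.closure (Set.range fun s => D.π (t s)) = ⊤) (m : ℕ)
    (hN : FPn (ZG N) m (Tr N)) (hA : FPn (ZG G) (m + 1) (Acone (D.ρ0 t) P0))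
    (hH : FPn (ZG H) (m + 2) (Tr H)) : FPn (ZG G) (m + 2) (Tr G) := by
  refine FPn.of_ff (FF.fin 1) (aug1 G) (aug1_surj G) ?_
  refine FPn.quot_ker (D.pr t hP0 ht) (D.pr_surj t hP0 ht) ?_ hA
  exact (D.fpn_ker0 t ht m hH hN).of_equiv (D.kerPr t hP0 ht)

end init

/-- The homological part of the theorem. -/
theorem Dat.fpn {N P H Γ Q S ω : Type} [Group N] [Group P] [Group H] [Group Γ] [Group Q]
    (K : Dat N P H Γ Q S ω) [Finite S] [Finite ω]
    (ht : Subgroup.closure (Set.range fun s => K.DP.π (K.t s)) = ⊤)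
    (ht' : Subgroup.closure (Set.range fun s => K.DG.π (K.f (K.t s))) = ⊤) (n : ℕ)
    (hN : FPn (ZG N) (n + 1) (Tr N)) (hΓ : FPn (ZG Γ) (n + 2) (Tr Γ))
    (hH : FPn (ZG H) (n + 2) (Tr H)) (hQ : FPn (ZG Q) (n + 3) (Tr Q)) :
    FPn (ZG P) (n + 2) (Tr P) := by
  classical
  cases nonempty_fintype S
  obtain ⟨PP, hPP⟩ := K.DP.exists_cov 1 (aug1 N) K.DP.j0
  obtain ⟨PG, hPG⟩ := K.DG.exists_cov 1 (aug1 N) K.DG.j0
  have h1 := K.DG.fpn_cone (fun s => K.f (K.t s)) hPG ht' (n + 1) hN hΓ hQ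
  have h2 := K.main n K.DP.isInd_j0 K.DG.isInd_j0 (semi_θ0 K.c) (relProp_θ0 K.w K.ν)
    (K.DP.comp_ρ0 K.t) (K.DG.comp_ρ0 (fun s => K.f (K.t s))) hN (aug1 N) (aug1_surj N) PP hPP
    PG hPG h1
  exact K.DP.fpn_of_cone K.t hPP ht n hN.mono h2 hH

end Pool.Agent.K9h89
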