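import Pool.Agent.K9h89.FPn

/-!
# Restriction of scalars and finiteness conditions
-/

set_option autoImplicit false

namespace Pool.Agent.K9h89

universe u

/-- Restriction of scalars along `φ : R → R'`. -/
def Res {R R' : Type u} [Ring R] [Ring R'] (_φ : R →+* R') (M : Type u) : Type u := M

variable {R R' : Type u} [Ring R] [Ring R'] (φ : R →+* R')

instance (M : Type u) [AddCommGroup M] : AddCommGroup (Res φ M) := inferInstanceAs (AddCommGroup M)

instance (M : Type u) [AddCommGroup M] [Module R' M] : Module R (Res φ M) :=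
  Module.compHom M φ

theorem Res.smul_def {M : Type u} [AddCommGroup M] [Module R' M] (r : R) (m : Res φ M) :
    r • m = (show Res φ M from (φ r • (show M from m))) := rfl

/-- Restriction of a linear map. -/
def Res.map {M M' : Type u} [AddCommGroup M] [Module R' M] [AddCommGroup M'] [Module R' M']
    (f : M →ₗ[R'] M') : Res φ M →ₗ[R] Res φ M' where
  toFun := f
  map_add' := f.map_add
  map_smul' r x := f.map_smul (φ r) x

theorem Res.map_apply {M M' : Type u} [AddCommGroup M] [Module R' M] [AddCommGroup M']
    [Module R' M'] (f : M →ₗ[R'] M') (x : M) : Res.map φ f x = f x := rfl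

/-- The kernel of a restricted map. -/
def Res.kerEquiv {M M' : Type u} [AddCommGroup M] [Module R' M] [AddCommGroup M'] [Module R' M']
    (f : M →ₗ[R'] M') : Res φ (LinearMap.ker f) ≃ₗ[R] LinearMap.ker (Res.map φ f) where
  toFun x := ⟨(show LinearMap.ker f from x).1, (show LinearMap.ker f from x).2⟩
  invFun x := (⟨x.1, x.2⟩ : LinearMap.ker f)
  map_add' _ _ := rfl
  map_smul' _ _ := rfl
  left_inv _ := rfl
  right_inv _ := rfl

/-- Restriction of a power. -/
def Res.piEquiv (M : Type u) [AddCommGroup M] [Module R' M] (k : ℕ) :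
    (Fin k → Res φ M) ≃ₗ[R] Res φ (Fin k → M) where
  toFun x := x
  invFun x := x
  map_add' _ _ := rfl
  map_smul' _ _ := rfl
  left_inv _ := rfl
  right_inv _ := rfl

/-- Change of rings. -/
theorem FPn.res {n : ℕ} (hR : FPn R n (Res φ R')) {M : Type u} [AddCommGroup M] [Module R' M]
    (hM : FPn R' n M) : FPn R n (Res φ M) := by
  induction n generalizing M with
  | zero => trivial
  | succ n ih =>
    obtain ⟨k, f, hf, hk⟩ := hM
    have h1 : FPn R (n + 1) (Res φ (Fin k → R')) := (hR.pi k).of_equiv (Res.piEquiv φ R' k)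
    refine FPn.quot_ker (Res.map φ f) hf ?_ h1
    exact (ih hR.mono hk).of_equiv (Res.kerEquiv φ f)

end Pool.Agent.K9h89
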