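import Pool.Agent.K9h89.Ind

/-!
# The comparison of the two sides
-/

set_option autoImplicit false
set_option linter.unusedSectionVars false

namespace Pool.Agent.K9h89

open MonoidAlgebra (single)

section words

variable {N S : Type} [Group N] (c : S → N →* N)

/-- The automorphism of `N` given by a word. -/
def cw : List S → N →* N
  | [] => MonoidHom.id N
  | s :: l => (c s).comp (cw l)

variable {X : Type} [AddCommGroup X] [Module (ZG N) X]

/-- The action of a word on `X`. -/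
def tw (θ : S → X →+ X) : List S → X →+ X
  | [] => AddMonoidHom.id X
  | s :: l => (θ s).comp (tw θ l)

/-- The product of the elements of a word. -/
def gw {G : Type} [Group G] (t : S → G) : List S → G
  | [] => 1
  | s :: l => t s * gw t l

theorem gw_map {G G' : Type} [Group G] [Group G'] (f : G →* G') (t : S → G) (l : List S) :
    f (gw t l) = gw (fun s => f (t s)) l := by
  induction l with
  | nil => exact map_one f
  | cons s l ih => rw [gw, gw, map_mul, ih]

/-- Semilinearity of the `θ_s`. -/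
def Semi (θ : S → X →+ X) : Prop := ∀ s n x, θ s (gr n • x) = gr (c s n) • θ s x

variable {c}

theorem Semi.word {θ : S → X →+ X} (h : Semi c θ) (l : List S) (n : N) (x : X) :
    tw θ l (gr n • x) = gr (cw c l n) • tw θ l x := by
  induction l with
  | nil => rfl
  | cons s l ih =>
    change θ s (tw θ l (gr n • x)) = gr (c s (cw c l n)) • θ s (tw θ l x)
    rw [ih, h]

/-- For the words `w o`, the map `ν(o)^{-1} θ_{w o} - 1` factors through a finitely generated free
module. -/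
def RelProp {ω : Type} (w : ω → List S) (ν : ω → N) (θ : S → X →+ X) : Prop :=
  ∀ o, ∃ (l : ℕ) (α : X →ₗ[ZG N] (Fin l → ZG N)) (β : (Fin l → ZG N) →ₗ[ZG N] X),
    ∀ x, tw θ (w o) x = gr (ν o) • (x + β (α x))

/-- The semilinear map out of a free module. -/
noncomputable def sl {k : ℕ} (f : N →* N) (v : Fin k → X) : (Fin k → ZG N) →+ X where
  toFun x := ∑ i, mm f (x i) • v i
  map_zero' := by simp
  map_add' x y := by
    rw [← Finset.sum_add_distrib]
    refine Finset.sum_congr rfl fun i _ => ?_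
    rw [Pi.add_apply, map_add, add_smul]

theorem sl_apply {k : ℕ} (f : N →* N) (v : Fin k → X) (x : Fin k → ZG N) :
    sl f v x = ∑ i, mm f (x i) • v i := rfl

theorem sl_gr {k : ℕ} (f : N →* N) (v : Fin k → X) (n : N) (x : Fin k → ZG N) :
    sl f v (gr n • x) = gr (f n) • sl f v x := by
  rw [sl_apply, sl_apply, Finset.smul_sum]
  refine Finset.sum_congr rfl fun i _ => ?_
  rw [Pi.smul_apply, smul_eq_mul, map_mul, mm_gr, mul_smul]

/-- The restriction of `θ'` to the kernel of `p`. -/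
def thk {F : Type} [AddCommGroup F] [Module (ZG N) F] (p : F →ₗ[ZG N] X) (θ' : S → F →+ F)
    (θ : S → X →+ X) (hc : ∀ s x, p (θ' s x) = θ s (p x)) (s : S) :
    LinearMap.ker p →+ LinearMap.ker p where
  toFun x := ⟨θ' s x, by
    have := x.2
    rw [LinearMap.mem_ker] at this ⊢
    rw [hc, this, map_zero]⟩
  map_zero' := by
    apply Subtype.ext
    exact map_zero (θ' s)
  map_add' x y := by
    apply Subtype.ext
    exact map_add (θ' s) _ _

theorem thk_coe {F : Type} [AddCommGroup F] [Module (ZG N) F] (p : F →ₗ[ZG N] X)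
    (θ' : S → F →+ F) (θ : S → X →+ X) (hc : ∀ s x, p (θ' s x) = θ s (p x)) (s : S)
    (x : LinearMap.ker p) : ((thk p θ' θ hc s x : LinearMap.ker p) : F) = θ' s x := rfl

theorem tw_thk_coe {F : Type} [AddCommGroup F] [Module (ZG N) F] (p : F →ₗ[ZG N] X)
    (θ' : S → F →+ F) (θ : S → X →+ X) (hc : ∀ s x, p (θ' s x) = θ s (p x)) (l : List S)
    (x : LinearMap.ker p) :
    ((tw (thk p θ' θ hc) l x : LinearMap.ker p) : F) = tw θ' l x := by
  induction l with
  | nil => rfl
  | cons s l ih =>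
    change ((thk p θ' θ hc s (tw (thk p θ' θ hc) l x) : LinearMap.ker p) : F) = θ' s (tw θ' l x)
    rw [thk_coe, ih]

theorem p_tw {F : Type} [AddCommGroup F] [Module (ZG N) F] (p : F →ₗ[ZG N] X)
    (θ' : S → F →+ F) (θ : S → X →+ X) (hc : ∀ s x, p (θ' s x) = θ s (p x)) (l : List S)
    (x : F) : p (tw θ' l x) = tw θ l (p x) := by
  induction l with
  | nil => rfl
  | cons s l ih =>
    change p (θ' s (tw θ' l x)) = θ s (tw θ l (p x))
    rw [hc, ih]

theorem Semi.thk {F : Type} [AddCommGroup F] [Module (ZG N) F] {p : F →ₗ[ZG N] X}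
    {θ' : S → F →+ F} {θ : S → X →+ X} {hc : ∀ s x, p (θ' s x) = θ s (p x)} (h : Semi c θ') :
    Semi c (thk p θ' θ hc) := by
  intro s n x
  apply Subtype.ext
  exact h s n x

/-- Existence of lifts. -/
theorem exists_lift {k : ℕ} (p : (Fin k → ZG N) →ₗ[ZG N] X) (hp : Function.Surjective p)
    {θ : S → X →+ X} (h : Semi c θ) :
    ∃ θ' : S → (Fin k → ZG N) →+ (Fin k → ZG N), Semi c θ' ∧ ∀ s x, p (θ' s x) = θ s (p x) := by
  classical
  choose v hv using fun (s : S) (i : Fin k) => hp (θ s (p (Pi.single i 1)))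
  refine ⟨fun s => sl (c s) (v s), fun s n x => sl_gr _ _ _ _, ?_⟩
  intro s x
  have h1 : ∀ (a : ZG N) (y : X), θ s (a • y) = mm (c s) a • θ s y :=
    smul_of_gr (c s) (θ s) (fun n y => h s n y)
  rw [sl_apply, map_sum]
  conv_rhs => rw [pi_eq_sum_univ x, map_sum, map_sum]
  refine Finset.sum_congr rfl fun i _ => ?_
  rw [map_smul, hv, map_smul, h1]
  congr 3
  funext j
  simp [Pi.single_apply, eq_comm]

theorem RelProp.lift {ω : Type} {w : ω → List S} {ν : ω → N}
    (hν : ∀ o n, cw c (w o) n = ν o * n * (ν o)⁻¹) {θ : S → X →+ X} (h : RelProp w ν θ)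
    {k : ℕ} (p : (Fin k → ZG N) →ₗ[ZG N] X) (hp : Function.Surjective p)
    {θ' : S → (Fin k → ZG N) →+ (Fin k → ZG N)} (hθ' : Semi c θ')
    (hc : ∀ s x, p (θ' s x) = θ s (p x)) : RelProp w ν (thk p θ' θ hc) := by
  intro o
  obtain ⟨l, α, β, hαβ⟩ := h o
  obtain ⟨b, hb⟩ := Module.projective_lifting_property p β hp
  have hb' : ∀ x, p (b x) = β x := fun x => LinearMap.congr_fun hb x
  -- the linear map `ν⁻¹ θ'_w`
  let φ : (Fin k → ZG N) →ₗ[ZG N] (Fin k → ZG N) :=
    linOf ((DistribSMul.toAddMonoidHom (Fin k → ZG N) (gr (ν o)⁻¹)).comp (tw θ' (w o))) (by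
      intro n x
      change gr (ν o)⁻¹ • tw θ' (w o) (gr n • x) = gr n • gr (ν o)⁻¹ • tw θ' (w o) x
      rw [hθ'.word, hν, ← mul_smul, ← mul_smul, ← gr_mul, ← gr_mul]
      congr 2
      group)
  have hφ : ∀ x, φ x = gr (ν o)⁻¹ • tw θ' (w o) x := fun x => rfl
  refine ⟨k, (LinearMap.ker p).subtype, LinearMap.codRestrict _ (φ - LinearMap.id - b ∘ₗ α ∘ₗ p) ?_,
    ?_⟩
  · intro x
    rw [LinearMap.mem_ker]
    simp only [LinearMap.sub_apply, LinearMap.id_apply, LinearMap.comp_apply, map_sub, hb', hφ,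
      map_smul, p_tw p θ' θ hc, hαβ]
    rw [← mul_smul, ← gr_mul, inv_mul_cancel, gr_one, one_smul]
    abel
  · intro x
    apply Subtype.ext
    rw [tw_thk_coe]
    have h1 : p (x : Fin k → ZG N) = 0 := x.2
    simp only [Submodule.coe_smul, Submodule.coe_add, LinearMap.codRestrict_apply,
      LinearMap.sub_apply, LinearMap.id_apply, LinearMap.comp_apply, Submodule.subtype_apply, h1,
      map_zero, sub_zero, hφ, add_sub_cancel]
    rw [← mul_smul, ← gr_mul, mul_inv_cancel, gr_one, one_smul]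

end words

section sides

variable {N G H S : Type} [Group N] [Group G] [Group H] (D : Side N G H) {c : S → N →* N}
  (t : S → G)
  {X E : Type} [AddCommGroup X] [Module (ZG N) X] [AddCommGroup E] [Module (ZG G) E]
  (j : X →ₛₗ[mm D.ι] E)

/-- `t_s` acts on `N` as `c_s`. -/
def Side.Act (c : S → N →* N) : Prop := ∀ s n, t s * D.ι n = D.ι (c s n) * t s

/-- The compatibility of `ρ_s` and `θ_s`. -/
def Side.Comp (θ : S → X →+ X) (ρ : S → E →ₗ[ZG G] E) : Prop :=
  ∀ s x, ρ s (j x) = gr (t s)⁻¹ • j (θ s x)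

variable {j} {t}

theorem Side.Comp.gr {θ : S → X →+ X} {ρ : S → E →ₗ[ZG G] E} (h : D.Comp t j θ ρ) (s : S)
    (g : G) (x : X) : ρ s (gr g • j x) = gr (g * (t s)⁻¹) • j (θ s x) := by
  rw [map_smul, h, ← mul_smul, ← gr_mul]

theorem Side.IsInd.exists_rho (hj : D.IsInd j) (ht : D.Act t c) {θ : S → X →+ X}
    (hθ : Semi c θ) : ∃ ρ : S → E →ₗ[ZG G] E, D.Comp t j θ ρ := by
  have h1 : ∀ s, ∃ F : E →ₗ[ZG G] E, ∀ x, F (j x) = gr (t s)⁻¹ • j (θ s x) := by
    intro s
    refine hj.exists_lin D ((DistribSMul.toAddMonoidHom E (Pool.Agent.K9h89.gr (t s)⁻¹)).comp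
      (j.toAddMonoidHom.comp (θ s))) ?_
    intro n x
    change Pool.Agent.K9h89.gr (t s)⁻¹ • j (θ s (Pool.Agent.K9h89.gr n • x)) =
      Pool.Agent.K9h89.gr (D.ι n) • Pool.Agent.K9h89.gr (t s)⁻¹ • j (θ s x)
    rw [hθ, D.j_gr, ← mul_smul, ← mul_smul, ← gr_mul, ← gr_mul]
    congr 2
    have := ht s n
    rw [inv_mul_eq_iff_eq_mul, ← mul_assoc, this, mul_inv_cancel_right]
  choose ρ hρ using h1
  exact ⟨ρ, hρ⟩

/-- Compatibility of lifts. -/
theorem Side.comm_of_comp {k : ℕ} {p : (Fin k → ZG N) →ₗ[ZG N] X}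
    {P : (Fin k → ZG G) →ₗ[ZG G] E} (hP : ∀ x, P (D.jF k x) = j (p x))
    {θ : S → X →+ X} {ρ : S → E →ₗ[ZG G] E} (h : D.Comp t j θ ρ)
    {θ' : S → (Fin k → ZG N) →+ (Fin k → ZG N)} (hc : ∀ s x, p (θ' s x) = θ s (p x))
    {ρ' : S → (Fin k → ZG G) →ₗ[ZG G] (Fin k → ZG G)} (h' : D.Comp t (D.jF k) θ' ρ')
    (s : S) (x : Fin k → ZG G) : P (ρ' s x) = ρ s (P x) := by
  have h1 : P ∘ₗ ρ' s = ρ s ∘ₗ P := by
    apply (D.isInd_jF k).lin_ext D
    intro y
    rw [LinearMap.comp_apply, LinearMap.comp_apply, h', map_smul, hP, hP, hc, h]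
  exact LinearMap.congr_fun h1 x

theorem Side.Comp.ker {k : ℕ} {p : (Fin k → ZG N) →ₗ[ZG N] X}
    {P : (Fin k → ZG G) →ₗ[ZG G] E} (hP : ∀ x, P (D.jF k x) = j (p x))
    {θ : S → X →+ X} {ρ : S → E →ₗ[ZG G] E}
    {θ' : S → (Fin k → ZG N) →+ (Fin k → ZG N)} (hc : ∀ s x, p (θ' s x) = θ s (p x))
    {ρ' : S → (Fin k → ZG G) →ₗ[ZG G] (Fin k → ZG G)} (h' : D.Comp t (D.jF k) θ' ρ')
    (hc' : ∀ s x, P (ρ' s x) = ρ s (P x)) :
    D.Comp t (D.jk (D.jF k) j p P hP) (thk p θ' θ hc) (rk P ρ' ρ hc') := by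
  intro s x
  apply Subtype.ext
  exact h' s x

end sides

/-- If `A + U` is everything with `U` finitely generated then the quotient by `A` is finitely
generated. -/
theorem finite_quot {R M : Type} [Ring R] [AddCommGroup M] [Module R M] (A U : Submodule R M)
    (hU : U.FG) (h : A ⊔ U = ⊤) : Module.Finite R (M ⧸ A) := by
  have : Module.Finite R U := Module.Finite.iff_fg.2 hU
  refine Module.Finite.of_surjective (A.mkQ ∘ₗ U.subtype) ?_
  intro y
  obtain ⟨x, rfl⟩ := A.mkQ_surjective y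
  have hx : x ∈ A ⊔ U := by rw [h]; trivial
  obtain ⟨a, ha, u, hu, rfl⟩ := Submodule.mem_sup.1 hx
  refine ⟨⟨u, hu⟩, ?_⟩
  rw [LinearMap.comp_apply, map_add, Submodule.subtype_apply]
  have : A.mkQ a = 0 := by
    rw [Submodule.mkQ_apply, Submodule.Quotient.mk_eq_zero]; exact ha
  rw [this, zero_add]

/-- Finitely many elements `j x` generate a finitely generated quotient of an induced module. -/
theorem exists_finset {N G H : Type} [Group N] [Group G] [Group H] (D : Side N G H)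
    {X E : Type} [AddCommGroup X] [Module (ZG N) X] [AddCommGroup E] [Module (ZG G) E]
    {j : X →ₛₗ[mm D.ι] E} (hj : D.IsInd j) (A : Submodule (ZG G) E)
    (h : Module.Finite (ZG G) (E ⧸ A)) :
    ∃ T : Finset X, A ⊔ Submodule.span (ZG G) (j '' (T : Set X)) = ⊤ := by
  classical
  obtain ⟨B, hB⟩ := h.fg_top
  choose e he using fun b : E ⧸ A => A.mkQ_surjective b
  choose f hf using fun x : E => hj.2 x
  let T : Finset X := B.biUnion (fun b => (f (e b)).support.image (f (e b)))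
  refine ⟨T, ?_⟩
  set V := A ⊔ Submodule.span (ZG G) (j '' (T : Set X)) with hV
  have h1 : ∀ b ∈ B, e b ∈ V := by
    intro b hb
    have h2 : ∀ y : H →₀ X, (∀ h ∈ y.support, y h ∈ T) → D.toInd j y ∈ V := by
      intro y hy
      have h3 : D.toInd j y = ∑ h ∈ y.support, gr (D.σ h) • j (y h) := by
        conv_lhs => rw [← Finsupp.sum_single y]
        rw [Finsupp.sum, map_sum]
        exact Finset.sum_congr rfl fun h _ => D.toInd_single j h (y h)
      rw [h3]
      refine V.sum_mem fun h hh => V.smul_mem _ ?_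
      exact (le_sup_right : _ ≤ V) (Submodule.subset_span ⟨y h, hy h hh, rfl⟩)
    rw [← hf (e b)]
    apply h2
    intro h hh
    simp only [T, Finset.mem_biUnion, Finset.mem_image]
    exact ⟨b, hb, h, hh, rfl⟩
  have h2 : V.map A.mkQ = ⊤ := by
    rw [eq_top_iff, ← hB, Submodule.span_le]
    intro b hb
    exact ⟨e b, h1 b hb, he b⟩
  rw [eq_top_iff]
  intro x _
  have h3 : A.mkQ x ∈ V.map A.mkQ := by rw [h2]; trivial
  obtain ⟨v, hv, hvx⟩ := h3
  have h4 : x - v ∈ A := by
    rw [← Submodule.Quotient.mk_eq_zero, ← Submodule.mkQ_apply, map_sub, hvx, sub_self]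
  have h5 : x = v + (x - v) := by abel
  rw [h5]
  exact V.add_mem hv ((le_sup_left : A ≤ V) h4)

end Pool.Agent.K9h89
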