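import Pool.Agent.K9h89.Step

/-!
# The transfer from `Γ₁` to the fibre product
-/

set_option autoImplicit false
set_option linter.unusedSectionVars false

namespace Pool.Agent.K9h89

open MonoidAlgebra (single)

/-- The common data for the two sides: `1 → N → P → H → 1`, `1 → N → Γ → Q → 1`, a surjection
`f : P → Γ` which is the identity on `N`, finitely many elements `t_s` of `P` which together with `N`
generate `P`, and words `w_o` with `t_{w_o} = ν_o κ_o` such that the kernel of `f` is the normal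
closure of the `κ_o`. -/
structure Dat (N P H Γ Q S ω : Type) [Group N] [Group P] [Group H] [Group Γ] [Group Q] where
  DP : Side N P H
  DG : Side N Γ Q
  f : P →* Γ
  f_surj : Function.Surjective f
  f_ι : ∀ n, f (DP.ι n) = DG.ι n
  t : S → P
  c : S → N →* N
  act : DP.Act t c
  gen : Submonoid.closure (Set.range DP.ι ∪ Set.range t) = ⊤
  w : ω → List S
  ν : ω → N
  κ : ω → P
  hw : ∀ o, gw t (w o) = DP.ι (ν o) * κ o
  ker : f.ker ≤ Subgroup.normalClosure (Set.range κ)
  hν : ∀ o n, cw c (w o) n = ν o * n * (ν o)⁻¹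

section

variable {N P H Γ Q S ω : Type} [Group N] [Group P] [Group H] [Group Γ] [Group Q]
  (K : Dat N P H Γ Q S ω)

theorem Dat.actG (K : Dat N P H Γ Q S ω) : K.DG.Act (fun s => K.f (K.t s)) K.c := by
  intro s n
  rw [← K.f_ι, ← map_mul, K.act, map_mul, K.f_ι]

variable [Fintype S] [DecidableEq S] [Finite ω]
  {X EP EG : Type} [AddCommGroup X] [Module (ZG N) X] [AddCommGroup EP] [Module (ZG P) EP]
  [AddCommGroup EG] [Module (ZG Γ) EG]
  {jP : X →ₛₗ[mm K.DP.ι] EP} {jG : X →ₛₗ[mm K.DG.ι] EG}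

theorem Dat.transfer (K : Dat N P H Γ Q S ω) {jP : X →ₛₗ[mm K.DP.ι] EP}
    {jG : X →ₛₗ[mm K.DG.ι] EG} (hjP : K.DP.IsInd jP) (hjG : K.DG.IsInd jG)
    {θ : S → X →+ X} (hrel : RelProp K.w K.ν θ)
    {ρP : S → EP →ₗ[ZG P] EP} (hρP : K.DP.Comp K.t jP θ ρP)
    {ρG : S → EG →ₗ[ZG Γ] EG} (hρG : K.DG.Comp (fun s => K.f (K.t s)) jG θ ρG)
    (h : Module.Finite (ZG Γ) (EG ⧸ LinearMap.range (mu ρG))) :
    Module.Finite (ZG P) (EP ⧸ LinearMap.range (mu ρP)) := by
  classical
  obtain ⟨T, hT⟩ := exists_finset K.DG hjG _ h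
  choose l α β hαβ using hrel
  -- the finitely generated submodule
  let T' : Set X := (T : Set X) ∪ ⋃ o, Set.range (fun i : Fin (l o) => β o (Pi.single i 1))
  have hT'fin : T'.Finite := T.finite_toSet.union (Set.finite_iUnion fun o => Set.finite_range _)
  set U : Submodule (ZG P) EP := Submodule.span (ZG P) (jP '' T') with hU
  have hUfg : U.FG := Submodule.fg_span (hT'fin.image _)
  set A : Submodule (ZG P) EP := LinearMap.range (mu ρP) with hA
  set V : Submodule (ZG P) EP := A ⊔ U with hV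
  have hUV : ∀ x ∈ T', jP x ∈ V := fun x hx =>
    (le_sup_right : U ≤ V) (Submodule.subset_span ⟨x, hx, rfl⟩)
  -- the brackets
  let br : P → X →+ (EP ⧸ V) := fun g => V.mkQ.toAddMonoidHom.comp
    ((DistribSMul.toAddMonoidHom EP (gr g)).comp jP.toAddMonoidHom)
  have hbr : ∀ g x, br g x = V.mkQ (gr g • jP x) := fun g x => rfl
  have br0 : ∀ g x, jP x ∈ V → br g x = 0 := by
    intro g x hx
    rw [hbr, Submodule.mkQ_apply, Submodule.Quotient.mk_eq_zero]
    exact V.smul_mem _ hx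
  have br_ι : ∀ g n x, br (g * K.DP.ι n) x = br g (gr n • x) := by
    intro g n x
    rw [hbr, hbr, K.DP.j_gr, gr_mul, mul_smul]
  have br_t : ∀ g s x, br (g * K.t s) x = br g (θ s x) := by
    intro g s x
    have h1 : mu ρP (Pi.single s (gr (g * K.t s) • jP x)) =
        gr g • jP (θ s x) - gr (g * K.t s) • jP x := by
      rw [mu_apply, Finset.sum_eq_single s]
      · rw [Pi.single_eq_same, hρP.gr, mul_inv_cancel_right]
      · intro s' _ hs'
        rw [Pi.single_eq_of_ne hs', map_zero, sub_zero]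
      · intro hs
        exact absurd (Finset.mem_univ s) hs
    have h2 : gr g • jP (θ s x) - gr (g * K.t s) • jP x ∈ V :=
      (le_sup_left : A ≤ V) (by rw [hA, ← h1]; exact LinearMap.mem_range_self _ _)
    rw [hbr, hbr, eq_comm, ← sub_eq_zero, ← map_sub, Submodule.mkQ_apply,
      Submodule.Quotient.mk_eq_zero]
    exact h2
  have br_w : ∀ (l' : List S) g x, br (g * gw K.t l') x = br g (tw θ l' x) := by
    intro l'
    induction l' with
    | nil => intro g x; rw [gw, mul_one]; rfl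
    | cons s l' ih =>
      intro g x
      rw [gw, ← mul_assoc, ih, br_t]
      rfl
  -- every element acts
  have hex : ∀ u : P, ∃ Θ : X → X, ∀ g x, br (g * u) x = br g (Θ x) := by
    intro u
    have hu : u ∈ Submonoid.closure (Set.range K.DP.ι ∪ Set.range K.t) := by
      rw [K.gen]; trivial
    induction hu using Submonoid.closure_induction with
    | mem u hu =>
      rcases hu with ⟨n, rfl⟩ | ⟨s, rfl⟩
      · exact ⟨fun x => gr n • x, fun g x => br_ι g n x⟩
      · exact ⟨fun x => θ s x, fun g x => br_t g s x⟩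
    | one => exact ⟨fun x => x, fun g x => by rw [mul_one]⟩
    | mul u v _ _ hu hv =>
      obtain ⟨Θ, hΘ⟩ := hu
      obtain ⟨Θ', hΘ'⟩ := hv
      exact ⟨fun x => Θ (Θ' x), fun g x => by rw [← mul_assoc, hΘ', hΘ]⟩
  -- the kernel of `f` acts trivially
  let Dd : Subgroup P :=
    { carrier := {k | ∀ g x, br (g * k) x = br g x}
      one_mem' := fun g x => by rw [mul_one]
      mul_mem' := by
        intro a b ha hb g x
        rw [← mul_assoc, hb, ha]
      inv_mem' := by
        intro a ha g x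
        have := ha (g * a⁻¹) x
        rw [inv_mul_cancel_right] at this
        exact this.symm }
  have hDd : ∀ k, k ∈ Dd ↔ ∀ g x, br (g * k) x = br g x := fun k => Iff.rfl
  have hnorm : Dd.Normal := by
    constructor
    intro k hk u
    rw [hDd] at hk ⊢
    intro g x
    obtain ⟨Θ, hΘ⟩ := hex u⁻¹
    rw [← mul_assoc, hΘ, ← mul_assoc, hk, ← hΘ, mul_inv_cancel_right]
  have hκ : ∀ o, K.κ o ∈ Dd := by
    intro o
    rw [hDd]
    intro g x
    have h1 : g * K.κ o = g * (K.DP.ι (K.ν o))⁻¹ * gw K.t (K.w o) := by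
      rw [K.hw]; group
    rw [h1, br_w, hαβ, ← br_ι, inv_mul_cancel_right, map_add]
    have h2 : jP (β o (α o x)) ∈ V := by
      have h3 : β o (α o x) = ∑ i, (α o x i) • β o (Pi.single i 1) := by
        conv_lhs => rw [pi_eq_sum_univ (α o x)]
        rw [map_sum]
        refine Finset.sum_congr rfl fun i _ => ?_
        rw [map_smul]
        congr 2
        funext i'
        simp [Pi.single_apply, eq_comm]
      rw [h3, map_sum]
      refine V.sum_mem fun i _ => ?_
      rw [map_smulₛₗ]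
      refine V.smul_mem _ (hUV _ (Or.inr ?_))
      exact Set.mem_iUnion.2 ⟨o, ⟨i, rfl⟩⟩
    rw [br0 _ _ h2, add_zero]
  have hkerD : K.f.ker ≤ Dd :=
    K.ker.trans (Subgroup.normalClosure_le_normal (by rintro _ ⟨o, rfl⟩; exact hκ o))
  have br_congr : ∀ g g' x, K.f g = K.f g' → br g x = br g' x := by
    intro g g' x hgg
    have h1 : g'⁻¹ * g ∈ K.f.ker := by
      rw [MonoidHom.mem_ker, map_mul, map_inv, hgg, inv_mul_cancel]
    have h2 := (hDd _).1 (hkerD h1) g' x
    rwa [mul_inv_cancel_left] at h2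
  -- the map on the other side
  let lift : Γ → P := Function.surjInv K.f_surj
  have hlift : ∀ γ, K.f (lift γ) = γ := fun γ => Function.surjInv_eq K.f_surj γ
  obtain ⟨L, hL⟩ := hjG.exists_addHom K.DG (fun γ => br (lift γ)) (by
    intro γ n x
    rw [← br_ι]
    apply br_congr
    rw [hlift, map_mul, hlift, K.f_ι])
  have hL' : ∀ g x, L (gr (K.f g) • jG x) = br g x := by
    intro g x
    rw [hL]
    exact br_congr _ _ _ (hlift _)
  have hLρ : ∀ s e, L (ρG s e - e) = 0 := by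
    intro s
    have h1 : L.comp ((ρG s).toAddMonoidHom - AddMonoidHom.id EG) = 0 := by
      apply hjG.addHom_ext K.DG
      intro γ x
      obtain ⟨g, rfl⟩ := K.f_surj γ
      change L (ρG s (gr (K.f g) • jG x) - gr (K.f g) • jG x) = 0
      rw [hρG.gr, map_sub, ← map_inv, ← map_mul, hL', hL', ← br_t, inv_mul_cancel_right, sub_self]
    intro e
    exact DFunLike.congr_fun h1 e
  have hLmu : ∀ b, L (mu ρG b) = 0 := by
    intro b
    rw [mu_apply, map_sum]
    exact Finset.sum_eq_zero fun s _ => hLρ s _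
  have hLT : ∀ x ∈ T, ∀ a : ZG Γ, L (a • jG x) = 0 := by
    intro x hx a
    induction a using MonoidAlgebra.induction_on with
    | of γ =>
      obtain ⟨g, rfl⟩ := K.f_surj γ
      rw [MonoidAlgebra.of_apply, hL']
      exact br0 _ _ (hUV x (Or.inl hx))
    | add a b ha hb => rw [add_smul, map_add, ha, hb, add_zero]
    | smul r a ha => rw [smul_assoc, map_zsmul, ha, smul_zero]
  have hLspan : ∀ e ∈ Submodule.span (ZG Γ) (jG '' (T : Set X)), ∀ a : ZG Γ, L (a • e) = 0 := by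
    intro e he
    induction he using Submodule.span_induction with
    | mem e he =>
      obtain ⟨x, hx, rfl⟩ := he
      exact hLT x hx
    | zero => intro a; rw [smul_zero, map_zero]
    | add e e' _ _ h1 h2 => intro a; rw [smul_add, map_add, h1, h2, add_zero]
    | smul b e _ h1 => intro a; rw [← mul_smul]; exact h1 _
  have hL0 : ∀ e, L e = 0 := by
    intro e
    have he : e ∈ LinearMap.range (mu ρG) ⊔ Submodule.span (ZG Γ) (jG '' (T : Set X)) := by
      rw [hT]; trivial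
    obtain ⟨e1, ⟨b, rfl⟩, e2, he2, rfl⟩ := Submodule.mem_sup.1 he
    rw [map_add, hLmu, zero_add]
    have := hLspan e2 he2 1
    rwa [one_smul] at this
  have hVtop : V = ⊤ := by
    apply hjP.span_eq_top K.DP
    intro x
    have h1 := hL' 1 x
    rw [hL0, hbr, gr_one, one_smul, eq_comm, Submodule.mkQ_apply,
      Submodule.Quotient.mk_eq_zero] at h1
    exact h1
  exact finite_quot A U hUfg hVtop

/-- The main induction. -/
theorem Dat.main (K : Dat N P H Γ Q S ω) (m : ℕ) :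
    ∀ {X EP EG : Type} [AddCommGroup X] [Module (ZG N) X] [AddCommGroup EP] [Module (ZG P) EP]
    [AddCommGroup EG] [Module (ZG Γ) EG]
    {jP : X →ₛₗ[mm K.DP.ι] EP}
    {jG : X →ₛₗ[mm K.DG.ι] EG} (_ : K.DP.IsInd jP) (_ : K.DG.IsInd jG)
    {θ : S → X →+ X} (_ : Semi K.c θ) (_ : RelProp K.w K.ν θ)
    {ρP : S → EP →ₗ[ZG P] EP} (_ : K.DP.Comp K.t jP θ ρP)
    {ρG : S → EG →ₗ[ZG Γ] EG} (_ : K.DG.Comp (fun s => K.f (K.t s)) jG θ ρG)
    (_ : FPn (ZG N) (m + 1) X) {k : ℕ} (p : (Fin k → ZG N) →ₗ[ZG N] X)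
    (_ : Function.Surjective p)
    (PP : (Fin k → ZG P) →ₗ[ZG P] EP) (_ : ∀ x, PP (K.DP.jF k x) = jP (p x))
    (PG : (Fin k → ZG Γ) →ₗ[ZG Γ] EG) (_ : ∀ x, PG (K.DG.jF k x) = jG (p x))
    (_ : FPn (ZG Γ) (m + 1) (Acone ρG PG)), FPn (ZG P) (m + 1) (Acone ρP PP) := by
  induction m with
  | zero =>
    intro X EP EG _ _ _ _ _ _ jP jG hjP hjG θ hθ hrel ρP hρP ρG hρG _ k p hp PP hPP PG hPG h
    obtain ⟨θ', hθ', hc⟩ := exists_lift p hp hθ
    obtain ⟨ρP', hρP'⟩ := (K.DP.isInd_jF k).exists_rho K.DP K.act hθ'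
    obtain ⟨ρG', hρG'⟩ := (K.DG.isInd_jF k).exists_rho K.DG K.actG hθ'
    have hcP := K.DP.comm_of_comp hPP hρP hc hρP'
    have hcG := K.DG.comm_of_comp hPG hρG hc hρG'
    have hPPs := hjP.surj K.DP p hp PP hPP
    have hPGs := hjG.surj K.DG p hp PG hPG
    rw [FPn.one_iff]
    have h1 := K1_mp PG ρG' ρG hcG hPGs h.finite
    have h2 := K.transfer ((K.DP.isInd_jF k).ker K.DP hjP p PP hPP)
      ((K.DG.isInd_jF k).ker K.DG hjG p PG hPG)
      (hrel.lift K.hν p hp hθ' hc) (Side.Comp.ker K.DP hPP hc hρP' hcP)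
      (Side.Comp.ker K.DG hPG hc hρG' hcG) h1
    exact K1_mpr PP ρP' ρP hcP hPPs inferInstance h2
  | succ m ih =>
    intro X EP EG _ _ _ _ _ _ jP jG hjP hjG θ hθ hrel ρP hρP ρG hρG hX k p hp PP hPP PG hPG h
    obtain ⟨θ', hθ', hc⟩ := exists_lift p hp hθ
    obtain ⟨ρP', hρP'⟩ := (K.DP.isInd_jF k).exists_rho K.DP K.act hθ'
    obtain ⟨ρG', hρG'⟩ := (K.DG.isInd_jF k).exists_rho K.DG K.actG hθ'
    have hcP := K.DP.comm_of_comp hPP hρP hc hρP'
    have hcG := K.DG.comm_of_comp hPG hρG hc hρG'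
    have hPPs := hjP.surj K.DP p hp PP hPP
    have hPGs := hjG.surj K.DG p hp PG hPG
    have hX' : FPn (ZG N) (m + 1) (LinearMap.ker p) := FPn.ker p hp (FPn.free _ _) hX
    obtain ⟨k', p', hp', -⟩ := hX'
    have hiP := (K.DP.isInd_jF k).ker K.DP hjP p PP hPP
    have hiG := (K.DG.isInd_jF k).ker K.DG hjG p PG hPG
    obtain ⟨PP', hPP'⟩ := K.DP.exists_cov k' p' (K.DP.jk (K.DP.jF k) jP p PP hPP)
    obtain ⟨PG', hPG'⟩ := K.DG.exists_cov k' p' (K.DG.jk (K.DG.jF k) jG p PG hPG)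
    have hPPs' := hiP.surj K.DP p' hp' PP' hPP'
    have hPGs' := hiG.surj K.DG p' hp' PG' hPG'
    rw [K2 PG ρG' ρG hcG PG' hPGs hPGs' (FF.fin k) (FF.fin k')] at h
    rw [K2 PP ρP' ρP hcP PP' hPPs hPPs' (FF.fin k) (FF.fin k')]
    exact ih hiP hiG (hθ'.thk (hc := hc))
      (hrel.lift K.hν p hp hθ' hc) (Side.Comp.ker K.DP hPP hc hρP' hcP)
      (Side.Comp.ker K.DG hPG hc hρG' hcG)
      (FPn.ker p hp (FPn.free _ _) hX) p' hp' PP' hPP' PG' hPG' h

end

end Pool.Agent.K9h89
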